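import Mathlib

/-!
# Every large sphere about a point of a bounded open set with connected boundary meets the complement
-/

open Metric Set Filter Topology

namespace Pool.Agent.MP_f42450_an

theorem exists_mem_frontier_of_preconnected {X : Type*} [TopologicalSpace X] {S Ω : Set X}
    (hΩ : IsOpen Ω) (hS : IsPreconnected S) {a b : X} (ha : a ∈ S) (haΩ : a ∈ Ω) (hb : b ∈ S)
    (hbΩ : b ∉ Ω) : ∃ z ∈ S, z ∈ frontier Ω := by
  by_contra hcon
  push Not at hcon
  have hsub : S ⊆ Ω ∪ (closure Ω)ᶜ := by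
    intro z hz
    by_cases h : z ∈ Ω
    · exact Or.inl h
    · refine Or.inr fun hcl => hcon z hz ?_
      rw [frontier, hΩ.interior_eq]
      exact ⟨hcl, h⟩
  have hdisj : Disjoint Ω (closure Ω)ᶜ :=
    disjoint_compl_right.mono_left subset_closure
  rcases IsPreconnected.subset_or_subset hΩ isClosed_closure.isOpen_compl hdisj hsub hS with h | h
  · exact hbΩ (h hb)
  · exact h ha (subset_closure haΩ)

theorem exists_on_sphere {E : Type*} [NormedAddCommGroup E] [NormedSpace ℝ E]
    [FiniteDimensional ℝ E] [Nontrivial E] {Ω : Set E} (hΩ : IsOpen Ω)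
    (hbd : Bornology.IsBounded Ω) (hconn : IsPreconnected (frontier Ω)) {x : E} (hx : x ∈ Ω)
    {r : ℝ} (hr : infDist x Ωᶜ ≤ r) : ∃ y, y ∉ Ω ∧ ‖y - x‖ = r := by
  by_contra hcon
  push Not at hcon
  have hcon' : ∀ y, ‖y - x‖ = r → y ∈ Ω := fun y hy => by
    by_contra h
    exact hcon y h hy
  have hne : (Ωᶜ).Nonempty := by
    rw [nonempty_compl]
    rintro rfl
    exact NormedSpace.unbounded_univ ℝ E hbd
  have hcl : IsClosed (Ωᶜ) := hΩ.isClosed_compl
  obtain ⟨y0, hy0, hy0d⟩ := hcl.exists_infDist_eq_dist hne x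
  have hpos : 0 < infDist x Ωᶜ := by
    rw [← hcl.notMem_iff_infDist_pos hne]
    exact fun h => h hx
  have hr0 : 0 < r := lt_of_lt_of_le hpos hr
  have hdist : ‖y0 - x‖ < r := by
    have h1 : ‖y0 - x‖ ≤ r := by
      rw [← dist_eq_norm, dist_comm, ← hy0d]
      exact hr
    exact lt_of_le_of_ne h1 fun h => hy0 (hcon' y0 h)
  -- a frontier point inside the ball
  obtain ⟨z1, hz1, hz1f⟩ : ∃ z ∈ ball x r, z ∈ frontier Ω :=
    exists_mem_frontier_of_preconnected hΩ (convex_ball x r).isPreconnected (mem_ball_self hr0) hx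
      (by rw [mem_ball, dist_eq_norm]; exact hdist) hy0
  -- a frontier point outside the ball
  obtain ⟨c, hc⟩ := exists_norm_eq E hr0.le
  have hray : IsPreconnected ((fun t : ℝ => x + t • c) '' Ici 1) :=
    (convex_Ici (1 : ℝ)).isPreconnected.image _ (by fun_prop)
  obtain ⟨R, hR⟩ := hbd.subset_closedBall x
  have hRpos : 0 ≤ R := by
    have := hR hx
    rw [mem_closedBall, dist_self] at this
    exact this
  obtain ⟨z2, hz2, hz2f⟩ : ∃ z ∈ (fun t : ℝ => x + t • c) '' Ici 1, z ∈ frontier Ω := by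
    refine exists_mem_frontier_of_preconnected hΩ hray (a := x + (1 : ℝ) • c)
      (b := x + (R / r + 1) • c) ⟨1, self_mem_Ici, rfl⟩ (hcon' _ (by simp [hc]))
      ⟨R / r + 1, ?_, rfl⟩ ?_
    · rw [mem_Ici]
      have : 0 ≤ R / r := by positivity
      linarith
    · intro h
      have h2 := hR h
      rw [mem_closedBall, dist_eq_norm, add_sub_cancel_left, norm_smul, hc,
        Real.norm_of_nonneg (by positivity), add_mul, div_mul_cancel₀ _ hr0.ne'] at h2
      linarith
  obtain ⟨t, ht, rfl⟩ := hz2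
  have hnot : ∀ z ∈ frontier Ω, z ∉ Ω := by
    intro z hz hzΩ
    rw [frontier, hΩ.interior_eq] at hz
    exact hz.2 hzΩ
  have hsub : frontier Ω ⊆ ball x r ∪ (closedBall x r)ᶜ := by
    intro z hz
    rcases lt_trichotomy (dist z x) r with h | h | h
    · exact Or.inl h
    · exact absurd (hcon' z (by rw [← dist_eq_norm]; exact h)) (hnot z hz)
    · exact Or.inr (by rw [mem_compl_iff, mem_closedBall, not_le]; exact h)
  have hdisj : Disjoint (ball x r) (closedBall x r)ᶜ :=
    disjoint_compl_right.mono_left ball_subset_closedBall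
  rcases IsPreconnected.subset_or_subset isOpen_ball isClosed_closedBall.isOpen_compl hdisj hsub
    hconn with h | h
  · have h3 := h hz2f
    simp only [mem_ball, dist_eq_norm, add_sub_cancel_left, norm_smul, hc] at h3
    rw [mem_Ici] at ht
    rw [Real.norm_of_nonneg (by linarith)] at h3
    nlinarith
  · exact h hz1f (ball_subset_closedBall hz1)

end Pool.Agent.MP_f42450_an
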