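import Pool.Agent.MP_f42450_an.Symm
import Pool.Agent.MP_f42450_an.Topo

/-!
# Affine changes of variables, the pointwise comparison estimate, dimension one
-/

open MeasureTheory Metric Set Filter Topology
open scoped ENNReal NNReal RealInnerProductSpace ContDiff

set_option linter.unusedSectionVars false

namespace Pool.Agent.MP_f42450_an

variable {E : Type*} [NormedAddCommGroup E] [InnerProductSpace ℝ E] [FiniteDimensional ℝ E]
  [MeasurableSpace E] [BorelSpace E]

theorem integral_comp_aff (f : E → ℝ) (x0 : E) {d : ℝ} (hd : 0 < d) :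
    ∫ z, f (x0 + d • z) = (d ^ Module.finrank ℝ E)⁻¹ * ∫ y, f y := by
  have h := Measure.integral_comp_smul (volume : Measure E) (fun z => f (x0 + z)) d
  rw [h, integral_add_left_eq_self f x0, abs_of_nonneg (by positivity), smul_eq_mul]

theorem map_aff (x0 : E) {d : ℝ} (hd : 0 < d) :
    Measure.map (fun z : E => x0 + d • z) volume =
      ENNReal.ofReal ((d ^ Module.finrank ℝ E)⁻¹) • volume := by
  have h1 : (fun z : E => x0 + d • z) = (fun z => x0 + z) ∘ (fun z => d • z) := rfl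
  rw [h1, ← Measure.map_map (by fun_prop) (by fun_prop), Measure.map_addHaar_smul _ hd.ne',
    Measure.map_smul, map_add_left_eq_self, abs_of_nonneg (by positivity)]

theorem eLpNorm_comp_aff {F : Type*} [NormedAddCommGroup F] {p : ℝ≥0∞} (hp' : p ≠ ⊤) {G : E → F}
    (hG : AEStronglyMeasurable G volume) (x0 : E) {d : ℝ} (hd : 0 < d) :
    AEStronglyMeasurable (fun z => G (x0 + d • z)) volume ∧
    eLpNorm (fun z => G (x0 + d • z)) p volume =
      ENNReal.ofReal ((d ^ Module.finrank ℝ E)⁻¹) ^ (1 / p).toReal * eLpNorm G p volume := by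
  have hm : Measurable (fun z : E => x0 + d • z) := by fun_prop
  have hG2 : AEStronglyMeasurable G (Measure.map (fun z : E => x0 + d • z) volume) := by
    rw [map_aff x0 hd]
    exact hG.smul_measure _
  refine ⟨hG2.comp_measurable hm, ?_⟩
  have h := eLpNorm_map_measure (p := p) hG2 hm.aemeasurable
  rw [map_aff x0 hd, eLpNorm_smul_measure_of_ne_top hp'] at h
  rw [smul_eq_mul] at h
  exact h.symm

theorem EN_affine {p C : ℝ≥0∞} (hp' : p ≠ ⊤) {u : E → ℝ} (hu : EN p C u) (x0 : E) {d : ℝ}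
    (hd : 0 < d) (a : ℝ) :
    EN p (ENNReal.ofReal (|a| * d) * (ENNReal.ofReal ((d ^ Module.finrank ℝ E)⁻¹) ^ (1 / p).toReal
      * C)) (fun z => a * u (x0 + d • z)) := by
  obtain ⟨huc, G, hG, hw, hGC⟩ := hu
  obtain ⟨hm, hn⟩ := eLpNorm_comp_aff hp' hG.aestronglyMeasurable x0 hd
  have henn : ‖a * d‖ₑ = ENNReal.ofReal (|a| * d) := by
    rw [← ofReal_norm, Real.norm_eq_abs, abs_mul, abs_of_pos hd]
  have hnorm : eLpNorm (fun z => (a * d) • G (x0 + d • z)) p volume =
      ENNReal.ofReal (|a| * d) * (ENNReal.ofReal ((d ^ Module.finrank ℝ E)⁻¹) ^ (1 / p).toReal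
      * eLpNorm G p volume) := by
    have h1 := eLpNorm_const_smul (a * d) (fun z => G (x0 + d • z)) p volume
    have h2 : (fun z => (a * d) • G (x0 + d • z)) = (a * d) • (fun z => G (x0 + d • z)) := rfl
    rw [h2, h1, hn, henn]
  refine ⟨by fun_prop, fun z => (a * d) • G (x0 + d • z), ⟨hm.const_smul (a * d), ?_⟩, ?_, ?_⟩
  · rw [hnorm]
    refine ENNReal.mul_lt_top ENNReal.ofReal_lt_top (ENNReal.mul_lt_top ?_ hG.2)
    exact (ENNReal.rpow_ne_top_of_nonneg ENNReal.toReal_nonneg ENNReal.ofReal_ne_top).lt_top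
  · intro φ hφ hc v
    -- transported test function
    set ψ : E → ℝ := fun y => φ (d⁻¹ • (y - x0)) with hψ
    have hψs : ContDiff ℝ ∞ ψ := hφ.comp (contDiff_const.smul (contDiff_id.sub contDiff_const))
    have hψc : HasCompactSupport ψ := by
      have h1 : HasCompactSupport (fun y : E => φ (d⁻¹ • y)) := hc.comp_smul (inv_ne_zero hd.ne')
      exact h1.comp_homeomorph (Homeomorph.subRight x0)
    have hψφ : ∀ z, ψ (x0 + d • z) = φ z := by
      intro z
      simp only [hψ, add_sub_cancel_left, smul_smul, inv_mul_cancel₀ hd.ne', one_smul]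
    have hder : ∀ z, fderiv ℝ φ z v = d * fderiv ℝ ψ (x0 + d • z) v := by
      intro z
      have h1 : HasFDerivAt (fun z : E => x0 + d • z) (d • ContinuousLinearMap.id ℝ E) z :=
        ((hasFDerivAt_id z).const_smul d).const_add x0
      have h2 : HasFDerivAt ψ (fderiv ℝ ψ (x0 + d • z)) (x0 + d • z) :=
        (hψs.differentiable (by simp) _).hasFDerivAt
      have h3 : HasFDerivAt (fun z => ψ (x0 + d • z))
          ((fderiv ℝ ψ (x0 + d • z)).comp (d • ContinuousLinearMap.id ℝ E)) z :=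
        HasFDerivAt.comp (g := ψ) (f := fun z : E => x0 + d • z) z h2 h1
      have h4 : (fun z => ψ (x0 + d • z)) = φ := funext hψφ
      rw [h4] at h3
      rw [h3.fderiv]
      simp
    have h := hw ψ hψs hψc v
    have e1 : ∫ z, a * u (x0 + d • z) * fderiv ℝ φ z v =
        (a * d) * ((d ^ Module.finrank ℝ E)⁻¹ * ∫ y, u y * fderiv ℝ ψ y v) := by
      rw [← integral_comp_aff (fun y => u y * fderiv ℝ ψ y v) x0 hd, ← integral_const_mul]
      refine integral_congr_ae (Eventually.of_forall fun z => ?_)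
      simp only [hder]
      ring
    have e2 : ∫ z, ⟪(a * d) • G (x0 + d • z), v⟫ * φ z =
        (a * d) * ((d ^ Module.finrank ℝ E)⁻¹ * ∫ y, ⟪G y, v⟫ * ψ y) := by
      rw [← integral_comp_aff (fun y => ⟪G y, v⟫ * ψ y) x0 hd, ← integral_const_mul]
      refine integral_congr_ae (Eventually.of_forall fun z => ?_)
      simp only [hψφ, real_inner_smul_left]
      ring
    rw [e1, e2, h]
    ring
  · rw [hnorm]
    gcongr

theorem EN_mono {p C C' : ℝ≥0∞} (h : C ≤ C') {u : E → ℝ} (hu : EN p C u) : EN p C' u :=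
  ⟨hu.1, hu.2.choose, hu.2.choose_spec.1, hu.2.choose_spec.2.1, hu.2.choose_spec.2.2.trans h⟩

/-- Main comparison: from `u` vanishing on points of each sphere around `x0` of radius `≥ d`, get
a competitor vanishing on the half-line `{-t e : t ≥ 0}` and equal to `1` at `e`. -/
theorem exists_competitor {p C : ℝ≥0∞} (hp : 2 ≤ p) (hp' : p ≠ ⊤) (hC : C ≠ ⊤)
    (hpn : (Module.finrank ℝ E : ℝ) < p.toReal) {e : E} (he : ‖e‖ = 1)
    {u : E → ℝ} (hu : EN p C u) {x0 : E} (hx0 : u x0 ≠ 0) {d : ℝ} (hd : 0 < d)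
    (hz : ∀ r : ℝ, d ≤ r → ∃ y, u y = 0 ∧ ‖y - x0‖ = r) :
    ∃ v : E → ℝ, EN p (ENNReal.ofReal (|(u x0)⁻¹| * d) *
      (ENNReal.ofReal ((d ^ Module.finrank ℝ E)⁻¹) ^ (1 / p).toReal * C)) v ∧
      v e = 1 ∧ ∀ t : ℝ, 0 ≤ t → v (-(t • e)) = 0 := by
  set C' : ℝ≥0∞ := ENNReal.ofReal (|(u x0)⁻¹| * d) *
      (ENNReal.ofReal ((d ^ Module.finrank ℝ E)⁻¹) ^ (1 / p).toReal * C) with hC'
  have hC't : C' ≠ ⊤ := ENNReal.mul_ne_top ENNReal.ofReal_ne_top (ENNReal.mul_ne_top
    (ENNReal.rpow_ne_top_of_nonneg ENNReal.toReal_nonneg ENNReal.ofReal_ne_top) hC)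
  have h1 : EN p C' (fun z => (u x0)⁻¹ * u (x0 + d • z)) := EN_affine hp' hu x0 hd _
  have hF : LipschitzWith 1 (fun t : ℝ => min |t| 1) := by
    have h2 : LipschitzWith 1 (fun t : ℝ => |t|) := by
      refine LipschitzWith.of_dist_le_mul fun a b => ?_
      rw [Real.dist_eq, Real.dist_eq, NNReal.coe_one, one_mul]
      exact abs_abs_sub_abs_le_abs_sub a b
    exact h2.min_const 1
  have h2 : EN p C' (fun z => min |(u x0)⁻¹ * u (x0 + d • z)| 1) := EN_comp hp hp' hC't hF h1
  have hne : (MC E p C').Nonempty := by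
    refine ⟨⟨_, h2.1⟩, fun x => ?_, ?_, fun r hr => ?_, h2⟩
    · simp only [ContinuousMap.coe_mk]
      exact ⟨le_min (abs_nonneg _) zero_le_one, min_le_right _ _⟩
    · simp only [ContinuousMap.coe_mk, smul_zero, add_zero, inv_mul_cancel₀ hx0, abs_one, min_self]
    · obtain ⟨y, hy0, hy⟩ := hz (r * d) (by nlinarith)
      refine ⟨d⁻¹ • (y - x0), ?_, ?_⟩
      · rw [norm_smul, hy, norm_inv, Real.norm_of_nonneg hd.le]
        field_simp
      · simp only [ContinuousMap.coe_mk, smul_smul, mul_inv_cancel₀ hd.ne', one_smul,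
          add_sub_cancel, hy0, mul_zero, abs_zero]
        exact min_eq_left zero_le_one
  obtain ⟨v, hv, hv0, hvr⟩ := exists_symm hp hp' hC't hpn he hne
  refine ⟨fun z => v (-e + z), ?_, ?_, ?_⟩
  · have h3 := EN_affine hp' hv (-e) one_pos 1
    simp only [one_mul, one_smul, abs_one, mul_one, ENNReal.ofReal_one, one_pow, inv_one,
      ENNReal.one_rpow] at h3
    exact h3
  · simp [hv0]
  · intro t ht
    have : -e + -(t • e) = -((1 + t) • e) := by
      rw [add_smul, one_smul]
      abel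
    simp only [this]
    exact hvr _ (by linarith)

/-- Dimension one: the sharp Morrey inequality with constant `1`. -/
theorem morrey_one {p C : ℝ≥0∞} (hp1 : 1 < p) (hp' : p ≠ ⊤) (hn : Module.finrank ℝ E = 1)
    {u : E → ℝ} (hu : EN p C u) (x y : E) :
    ‖u y - u x‖ₑ ≤ ‖y - x‖ₑ ^ (1 - 1 / p.toReal) * C := by
  have hp0 : p ≠ 0 := by
    rintro rfl
    simp at hp1
  have hpr : 1 < p.toReal := by
    have := (ENNReal.toReal_lt_toReal ENNReal.one_ne_top hp').2 hp1
    simpa using this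
  have hpos : 0 < p.toReal := by linarith
  rcases eq_or_ne x y with rfl | hxy
  · simp
  obtain ⟨U, Us, _, Ue, Ut⟩ := exists_mollify hp1 hp' hu
  have t1 : Tendsto (fun k => U k x) atTop (𝓝 (u x)) :=
    Ut.tendstoLocallyUniformlyOn.tendsto_at (mem_univ x)
  have t2 : Tendsto (fun k => U k y) atTop (𝓝 (u y)) :=
    Ut.tendstoLocallyUniformlyOn.tendsto_at (mem_univ y)
  refine le_of_tendsto ((t2.sub t1).enorm) (Eventually.of_forall fun k => ?_)
  have hC1 : ContDiff ℝ 1 (U k) := (Us k).of_le (by simp)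
  have hcd : Continuous (fderiv ℝ (U k)) := hC1.continuous_fderiv (by norm_num)
  set g : E → ℝ≥0∞ := fun z => ‖fderiv ℝ (U k) z‖ₑ with hg
  have gm : Measurable g := hcd.enorm.measurable
  have hr : y - x ≠ 0 := sub_ne_zero.2 hxy.symm
  set r : ℝ≥0∞ := ‖y - x‖ₑ with hrd
  have hr0 : r ≠ 0 := by
    rw [hrd]
    exact enorm_ne_zero.2 hr
  have hrt : r ≠ ⊤ := enorm_ne_top
  -- change of variables along the line
  have hline : ∀ h : E → ℝ≥0∞, Measurable h →
      ∫⁻ t : ℝ, h (x + t • (y - x)) = r⁻¹ * ∫⁻ z, h z := by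
    intro h hh
    -- a linear isometry from `ℝ`
    set w : E := (‖y - x‖)⁻¹ • (y - x) with hw
    have hw1 : ‖w‖ = 1 := by
      rw [hw, norm_smul, norm_inv, norm_norm, inv_mul_cancel₀ (norm_ne_zero_iff.2 hr)]
    let L : ℝ →ₗᵢ[ℝ] E :=
      { toLinearMap := LinearMap.toSpanSingleton ℝ E w
        norm_map' := fun t => by
          simp [LinearMap.toSpanSingleton_apply, norm_smul, hw1] }
    let Le : ℝ ≃ₗᵢ[ℝ] E := LinearIsometryEquiv.ofSurjective L (by
      have h1 : Function.Injective L := L.injective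
      have h2 : Module.finrank ℝ ℝ = Module.finrank ℝ E := by rw [hn]; simp
      exact (LinearMap.injective_iff_surjective_of_finrank_eq_finrank h2).1 h1)
    have hLe : ∀ t, Le t = t • w := fun t => rfl
    have hmp : MeasurePreserving Le volume volume := Le.measurePreserving
    have e1 : ∫⁻ t : ℝ, h (x + Le t) = ∫⁻ z, h z := by
      have := hmp.lintegral_comp (f := fun z => h (x + z)) (hh.comp (measurable_const_add x))
      rw [this, lintegral_add_left_eq_self]
    have e2 : ∫⁻ t : ℝ, h (x + t • (y - x)) = ∫⁻ t : ℝ, h (x + Le (‖y - x‖ * t)) := by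
      refine lintegral_congr fun t => ?_
      rw [hLe, hw, smul_smul]
      congr 3
      have := norm_ne_zero_iff.2 hr
      field_simp
    have hnp : 0 < ‖y - x‖ := norm_pos_iff.2 hr
    have e3 := lintegral_comp_affine (E := ℝ) (g := fun t : ℝ => h (x + Le t))
      (hh.comp ((measurable_const_add x).comp hmp.measurable)) 0 hnp
    simp only [sub_zero, zero_add, smul_eq_mul, Module.finrank_self, pow_one] at e3
    rw [e2, e3, e1, hrd, ← ofReal_norm, ENNReal.ofReal_inv_of_pos hnp]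
  have hpc : p.toReal.HolderConjugate p.toReal.conjExponent :=
    Real.HolderConjugate.conjExponent hpr
  have hgt : Measurable (fun t : ℝ => g (x + t • (y - x))) := by
    have h1 : Continuous (fun t : ℝ => x + t • (y - x)) := by fun_prop
    exact (hcd.enorm.comp h1).measurable
  have hH := ENNReal.lintegral_mul_le_Lp_mul_Lq (volume.restrict (Ioc (0 : ℝ) 1)) hpc
    (f := fun t => g (x + t • (y - x))) (g := fun _ => 1) hgt.aemeasurable aemeasurable_const
  simp only [Pi.mul_apply, mul_one, ENNReal.one_rpow, lintegral_const,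
    Measure.restrict_apply MeasurableSet.univ, univ_inter, Real.volume_Ioc, sub_zero,
    ENNReal.ofReal_one] at hH
  calc ‖U k y - U k x‖ₑ ≤ ∫⁻ t in Ioc (0 : ℝ) 1, g (x + t • (y - x)) * r :=
        enorm_sub_le_lintegral hC1 x y
    _ = (∫⁻ t in Ioc (0 : ℝ) 1, g (x + t • (y - x))) * r := lintegral_mul_const _ hgt
    _ ≤ (∫⁻ t in Ioc (0 : ℝ) 1, g (x + t • (y - x)) ^ p.toReal) ^ (1 / p.toReal) * r := by
        gcongr
    _ ≤ (∫⁻ t : ℝ, g (x + t • (y - x)) ^ p.toReal) ^ (1 / p.toReal) * r := by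
        gcongr
        exact Measure.restrict_le_self
    _ = (r⁻¹ * ∫⁻ z, g z ^ p.toReal) ^ (1 / p.toReal) * r := by
        rw [hline _ (gm.pow_const _)]
    _ = r ^ (1 - 1 / p.toReal) * (∫⁻ z, g z ^ p.toReal) ^ (1 / p.toReal) := by
        rw [ENNReal.mul_rpow_of_nonneg _ _ (by positivity), ENNReal.inv_rpow, ← ENNReal.rpow_neg]
        have : r ^ (-(1 / p.toReal)) * r = r ^ (1 - 1 / p.toReal) := by
          conv_lhs => rw [← ENNReal.rpow_one r, ← ENNReal.rpow_mul, ← ENNReal.rpow_add _ _ hr0 hrt]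
          congr 1
          ring
        rw [← this]
        ring
    _ ≤ r ^ (1 - 1 / p.toReal) * C := by
        gcongr
        have := Ue k
        rwa [eLpNorm_eq_lintegral_rpow_enorm_toReal hp0 hp'] at this

end Pool.Agent.MP_f42450_an
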