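import Mathlib

/-!
# Clarkson's first inequality and a Mazur-type extraction

For `p ≥ 2` and an inner product space valued `L^p` space, Clarkson's inequality gives uniform
convexity; it allows to extract from a bounded sequence a strongly convergent sequence of
convex combinations of tails.
-/

open MeasureTheory Metric Set Filter Topology
open scoped ENNReal NNReal

namespace Pool.Agent.MP_f42450_an

/-- Pointwise Clarkson inequality in an inner product space. -/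
theorem clarkson_pointwise {F : Type*} [NormedAddCommGroup F] [InnerProductSpace ℝ F]
    {p : ℝ} (hp : 2 ≤ p) (a b : F) :
    ‖a + b‖ₑ ^ p + ‖a - b‖ₑ ^ p ≤ 2 ^ (p - 1) * (‖a‖ₑ ^ p + ‖b‖ₑ ^ p) := by
  have hq : 1 ≤ p / 2 := by linarith
  have key : ‖a + b‖ₑ ^ (2 : ℝ) + ‖a - b‖ₑ ^ (2 : ℝ) = 2 * (‖a‖ₑ ^ (2 : ℝ) + ‖b‖ₑ ^ (2 : ℝ)) := by
    have h := parallelogram_law_with_norm ℝ a b
    have e : ∀ c : F, ‖c‖ₑ ^ (2 : ℝ) = ENNReal.ofReal (‖c‖ ^ 2) := by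
      intro c
      rw [← ofReal_norm, ENNReal.ofReal_rpow_of_nonneg (norm_nonneg _) (by norm_num)]
      congr 1
      norm_cast
    rw [e, e, e, e, ← ENNReal.ofReal_add (by positivity) (by positivity),
      ← ENNReal.ofReal_add (by positivity) (by positivity), h,
      ENNReal.ofReal_mul (by norm_num)]
    norm_num
  have e2 : ∀ c : F, ‖c‖ₑ ^ p = (‖c‖ₑ ^ (2 : ℝ)) ^ (p / 2) := by
    intro c
    rw [← ENNReal.rpow_mul]
    congr 1
    ring
  rw [e2, e2, e2 a, e2 b]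
  calc (‖a + b‖ₑ ^ (2 : ℝ)) ^ (p / 2) + (‖a - b‖ₑ ^ (2 : ℝ)) ^ (p / 2)
      ≤ (‖a + b‖ₑ ^ (2 : ℝ) + ‖a - b‖ₑ ^ (2 : ℝ)) ^ (p / 2) :=
        ENNReal.add_rpow_le_rpow_add _ _ hq
    _ = 2 ^ (p / 2) * (‖a‖ₑ ^ (2 : ℝ) + ‖b‖ₑ ^ (2 : ℝ)) ^ (p / 2) := by
        rw [key, ENNReal.mul_rpow_of_nonneg _ _ (by linarith)]
    _ ≤ 2 ^ (p / 2) * (2 ^ (p / 2 - 1) *
          ((‖a‖ₑ ^ (2 : ℝ)) ^ (p / 2) + (‖b‖ₑ ^ (2 : ℝ)) ^ (p / 2))) := by
        gcongr
        exact ENNReal.rpow_add_le_mul_rpow_add_rpow _ _ hq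
    _ = 2 ^ (p - 1) * ((‖a‖ₑ ^ (2 : ℝ)) ^ (p / 2) + (‖b‖ₑ ^ (2 : ℝ)) ^ (p / 2)) := by
        rw [← mul_assoc, ← ENNReal.rpow_add _ _ (by norm_num) (by norm_num)]
        congr 2
        ring

/-- Clarkson's first inequality for `L^p` norms. -/
theorem clarkson_Lp {α : Type*} {mα : MeasurableSpace α} {μ : Measure α}
    {F : Type*} [NormedAddCommGroup F] [InnerProductSpace ℝ F]
    {p : ℝ≥0∞} [Fact (1 ≤ p)] (hp : 2 ≤ p) (hp' : p ≠ ⊤) (f g : Lp F p μ) :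
    ‖f + g‖ ^ p.toReal + ‖f - g‖ ^ p.toReal ≤
      2 ^ (p.toReal - 1) * (‖f‖ ^ p.toReal + ‖g‖ ^ p.toReal) := by
  have hp0 : p ≠ 0 := by
    rintro rfl
    norm_num at hp
  have hpr : 2 ≤ p.toReal := by
    have := ENNReal.toReal_mono hp' hp
    simpa using this
  have hpos : 0 < p.toReal := by linarith
  have e : ∀ h : Lp F p μ, ENNReal.ofReal (‖h‖ ^ p.toReal) = ∫⁻ x, ‖h x‖ₑ ^ p.toReal ∂μ := by
    intro h
    rw [← ENNReal.ofReal_rpow_of_nonneg (norm_nonneg _) hpos.le, Lp.norm_def,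
      ENNReal.ofReal_toReal (Lp.eLpNorm_ne_top h), eLpNorm_eq_lintegral_rpow_enorm_toReal hp0 hp',
      ← ENNReal.rpow_mul, one_div, inv_mul_cancel₀ hpos.ne', ENNReal.rpow_one]
  have hadd : ∫⁻ x, ‖(f + g : Lp F p μ) x‖ₑ ^ p.toReal ∂μ = ∫⁻ x, ‖f x + g x‖ₑ ^ p.toReal ∂μ := by
    refine lintegral_congr_ae ?_
    filter_upwards [Lp.coeFn_add f g] with x hx
    rw [hx, Pi.add_apply]
  have hsub : ∫⁻ x, ‖(f - g : Lp F p μ) x‖ₑ ^ p.toReal ∂μ = ∫⁻ x, ‖f x - g x‖ₑ ^ p.toReal ∂μ := by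
    refine lintegral_congr_ae ?_
    filter_upwards [Lp.coeFn_sub f g] with x hx
    rw [hx, Pi.sub_apply]
  have mf : AEMeasurable (fun x => ‖f x‖ₑ ^ p.toReal) μ :=
    (Lp.aestronglyMeasurable f).enorm.pow_const _
  have mfg : AEMeasurable (fun x => ‖f x + g x‖ₑ ^ p.toReal) μ :=
    ((Lp.aestronglyMeasurable f).add (Lp.aestronglyMeasurable g)).enorm.pow_const _
  have h2 : ENNReal.ofReal (2 ^ (p.toReal - 1)) = (2 : ℝ≥0∞) ^ (p.toReal - 1) := by
    rw [← ENNReal.ofReal_rpow_of_pos (by norm_num)]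
    norm_num
  rw [← ENNReal.ofReal_le_ofReal_iff (by positivity),
    ENNReal.ofReal_add (by positivity) (by positivity), ENNReal.ofReal_mul (by positivity),
    ENNReal.ofReal_add (by positivity) (by positivity), e, e, e, e, hadd, hsub, h2,
    ← lintegral_add_left' mfg, ← lintegral_add_left' mf, ← lintegral_const_mul']
  · exact lintegral_mono fun x => clarkson_pointwise hpr _ _
  · exact ENNReal.rpow_ne_top_of_nonneg (by linarith) (by norm_num)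

/-- Mazur-type extraction in a complete space satisfying Clarkson's inequality. -/
theorem exists_convex_seq {V : Type*} [NormedAddCommGroup V] [NormedSpace ℝ V] [CompleteSpace V]
    {p : ℝ} (hp : 1 ≤ p)
    (hcl : ∀ f g : V, ‖f + g‖ ^ p + ‖f - g‖ ^ p ≤ 2 ^ (p - 1) * (‖f‖ ^ p + ‖g‖ ^ p))
    (g : ℕ → V) (M : ℝ) (hM : ∀ j, ‖g j‖ ≤ M) :
    ∃ (h : ℕ → V) (h' : V), (∀ k, h k ∈ convexHull ℝ (g '' Ici k)) ∧
      Tendsto h atTop (𝓝 h') ∧ ‖h'‖ ≤ M := by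
  have hp0 : 0 < p := by linarith
  set K : ℕ → Set V := fun k => convexHull ℝ (g '' Ici k) with hK
  have Kne : ∀ k, (K k).Nonempty := fun k => ⟨g k, subset_convexHull ℝ _ ⟨k, self_mem_Ici, rfl⟩⟩
  have Kanti : ∀ {k l}, k ≤ l → K l ⊆ K k := fun {k l} hkl =>
    convexHull_mono (image_mono (Ici_subset_Ici.2 hkl))
  set m : ℕ → ℝ := fun k => infDist 0 (K k) with hm
  have hmle : ∀ {k} {x}, x ∈ K k → m k ≤ ‖x‖ := fun {k x} hx => by
    have := infDist_le_dist_of_mem (x := (0 : V)) hx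
    simpa [dist_eq_norm] using this
  have hm0 : ∀ k, 0 ≤ m k := fun k => infDist_nonneg
  have mmono : Monotone m := fun k l hkl => infDist_le_infDist_of_subset (Kanti hkl) (Kne l)
  have mM : ∀ k, m k ≤ M := fun k =>
    (hmle (subset_convexHull ℝ _ ⟨k, self_mem_Ici, rfl⟩)).trans (hM k)
  have mbdd : BddAbove (range m) := ⟨M, by rintro _ ⟨k, rfl⟩; exact mM k⟩
  have mtend : Tendsto m atTop (𝓝 (⨆ k, m k)) := tendsto_atTop_ciSup mmono mbdd
  set m' := ⨆ k, m k with hm'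
  have mle' : ∀ k, m k ≤ m' := fun k => le_ciSup mbdd k
  have m'M : m' ≤ M := ciSup_le mM
  have m'0 : 0 ≤ m' := (hm0 0).trans (mle' 0)
  have hex : ∀ k : ℕ, ∃ x ∈ K k, ‖x‖ < m k + 1 / (k + 1) := by
    intro k
    have := (infDist_lt_iff (x := (0 : V)) (Kne k) (r := m k + 1 / (k + 1))).1
      (by simp only [hm]; have : (0 : ℝ) < 1 / (k + 1) := by positivity
          linarith)
    obtain ⟨y, hy, hyd⟩ := this
    exact ⟨y, hy, by simpa [dist_eq_norm] using hyd⟩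
  choose h hhK hhn using hex
  have tend1 : Tendsto (fun k : ℕ => m' + 1 / ((k : ℝ) + 1)) atTop (𝓝 m') := by
    have := (tendsto_const_nhds (x := m')).add (tendsto_one_div_add_atTop_nhds_zero_nat (𝕜 := ℝ))
    simpa using this
  have hnle : ∀ {N k : ℕ}, N ≤ k → ‖h k‖ ≤ m' + 1 / ((N : ℝ) + 1) := by
    intro N k hNk
    refine (hhn k).le.trans (add_le_add (mle' k) ?_)
    have : (N : ℝ) ≤ k := by exact_mod_cast hNk
    exact one_div_le_one_div_of_le (by positivity) (by linarith)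
  set b : ℕ → ℝ := fun N => (2 ^ p * ((m' + 1 / ((N : ℝ) + 1)) ^ p - (m N) ^ p)) ^ (1 / p) with hb
  have hdist : ∀ k l N : ℕ, N ≤ k → N ≤ l → dist (h k) (h l) ≤ b N := by
    intro k l N hk hl
    have hmem : (1 / 2 : ℝ) • (h k) + (1 / 2 : ℝ) • (h l) ∈ K N :=
      (convex_convexHull ℝ _) (Kanti hk (hhK k)) (Kanti hl (hhK l)) (by norm_num) (by norm_num)
        (by norm_num)
    have h1 : m N ≤ ‖h k + h l‖ / 2 := by
      have := hmle hmem
      rw [← smul_add, norm_smul] at this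
      norm_num at this
      linarith
    have h2 : (2 * m N) ^ p ≤ ‖h k + h l‖ ^ p :=
      Real.rpow_le_rpow (by have := hm0 N; positivity) (by linarith) hp0.le
    have h3 : ‖h k‖ ^ p ≤ (m' + 1 / ((N : ℝ) + 1)) ^ p :=
      Real.rpow_le_rpow (norm_nonneg _) (hnle hk) hp0.le
    have h4 : ‖h l‖ ^ p ≤ (m' + 1 / ((N : ℝ) + 1)) ^ p :=
      Real.rpow_le_rpow (norm_nonneg _) (hnle hl) hp0.le
    have h5 := hcl (h k) (h l)
    have h6 : (2 : ℝ) ^ (p - 1) * 2 = 2 ^ p := by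
      rw [← Real.rpow_add_one (by norm_num)]
      congr 1
      ring
    have h7 : ‖h k - h l‖ ^ p ≤ 2 ^ p * ((m' + 1 / ((N : ℝ) + 1)) ^ p - (m N) ^ p) := by
      have h8 : (2 : ℝ) ^ (p - 1) * (‖h k‖ ^ p + ‖h l‖ ^ p) ≤
          2 ^ (p - 1) * (2 * (m' + 1 / ((N : ℝ) + 1)) ^ p) := by
        gcongr
        linarith
      rw [← mul_assoc, h6] at h8
      rw [Real.mul_rpow (by norm_num) (hm0 N)] at h2
      linarith
    rw [dist_eq_norm, hb]
    calc ‖h k - h l‖ = (‖h k - h l‖ ^ p) ^ (1 / p) := by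
          rw [← Real.rpow_mul (norm_nonneg _), mul_one_div_cancel hp0.ne', Real.rpow_one]
      _ ≤ _ := Real.rpow_le_rpow (by positivity) h7 (by positivity)
  have btend : Tendsto b atTop (𝓝 0) := by
    have t1 : Tendsto (fun N : ℕ => (m' + 1 / ((N : ℝ) + 1)) ^ p) atTop (𝓝 (m' ^ p)) :=
      tend1.rpow_const (Or.inr hp0.le)
    have t2 : Tendsto (fun N : ℕ => (m N) ^ p) atTop (𝓝 (m' ^ p)) :=
      mtend.rpow_const (Or.inr hp0.le)
    have t3 : Tendsto (fun N : ℕ => 2 ^ p * ((m' + 1 / ((N : ℝ) + 1)) ^ p - (m N) ^ p)) atTop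
        (𝓝 (2 ^ p * (m' ^ p - m' ^ p))) := (t1.sub t2).const_mul _
    have t4 := t3.rpow_const (p := 1 / p) (Or.inr (by positivity))
    rw [sub_self, mul_zero, Real.zero_rpow (by positivity)] at t4
    exact t4
  have hcauchy : CauchySeq h := cauchySeq_of_le_tendsto_0 b hdist btend
  obtain ⟨h', hh'⟩ := cauchySeq_tendsto_of_complete hcauchy
  refine ⟨h, h', hhK, hh', ?_⟩
  have t5 : Tendsto (fun k => ‖h k‖) atTop (𝓝 ‖h'‖) := hh'.norm
  have t6 : Tendsto (fun k : ℕ => m' + 1 / ((k : ℝ) + 1)) atTop (𝓝 m') := tend1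
  exact (le_of_tendsto_of_tendsto' t5 t6 (fun k => hnle le_rfl)).trans m'M

end Pool.Agent.MP_f42450_an
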