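import Pool.Agent.MP_f42450_an.Affine

/-!
# Auxiliary facts: essential suprema of continuous functions, the one dimensional test function
-/

open MeasureTheory Metric Set Filter Topology
open scoped ENNReal NNReal RealInnerProductSpace ContDiff

set_option linter.unusedSectionVars false

namespace Pool.Agent.MP_f42450_an

variable {E : Type*} [NormedAddCommGroup E] [InnerProductSpace ℝ E] [FiniteDimensional ℝ E]
  [MeasurableSpace E] [BorelSpace E]

theorem enorm_le_essSup {f : E → ℝ} {W : Set E} (hW : IsOpen W) {x : E} (hx : x ∈ W)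
    (hf : ContinuousAt f x) : ‖f x‖ₑ ≤ eLpNorm f ⊤ (volume.restrict W) := by
  by_contra hcon
  rw [not_le, eLpNorm_exponent_top] at hcon
  have h1 : ∀ᶠ y in 𝓝 x, eLpNormEssSup f (volume.restrict W) < ‖f y‖ₑ :=
    hf.enorm.eventually (lt_mem_nhds hcon)
  have h2 : ∀ᶠ y in 𝓝 x, y ∈ W := hW.mem_nhds hx
  obtain ⟨V, hV, hVo, hxV⟩ := _root_.eventually_nhds_iff.1 (h1.and h2)
  have h3 : ∀ᵐ y ∂(volume.restrict W), ‖f y‖ₑ ≤ eLpNormEssSup f (volume.restrict W) :=
    ae_le_eLpNormEssSup
  rw [ae_restrict_iff' hW.measurableSet] at h3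
  have h4 : volume V = 0 := by
    refine measure_mono_null ?_ h3
    intro y hy
    have := hV y hy
    simp only [mem_compl_iff, mem_ofPred_eq]
    push Not
    exact ⟨this.2, this.1⟩
  exact (hVo.measure_pos volume ⟨x, hxV⟩).ne' h4

/-- The half-line condition: equality in Cauchy-Schwarz. -/
theorem eq_neg_smul_of_inner_le {e x : E} (he : ‖e‖ = 1) (h : ⟪x, e⟫ ≤ -‖x‖) :
    x = -(‖x‖ • e) := by
  have h1 : ‖x + ‖x‖ • e‖ ^ 2 ≤ 0 := by
    rw [norm_add_sq_real, norm_smul, he, real_inner_smul_right, norm_norm]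
    nlinarith [norm_nonneg x]
  have h2 : ‖x + ‖x‖ • e‖ = 0 := by
    have := sq_nonneg ‖x + ‖x‖ • e‖
    have h3 : ‖x + ‖x‖ • e‖ ^ 2 = 0 := le_antisymm h1 this
    exact pow_eq_zero_iff (two_ne_zero) |>.1 h3
  exact eq_neg_of_add_eq_zero_left (norm_eq_zero.1 h2)

/-- Volume of a unit slab in dimension one. -/
theorem volume_slab_one (hn : Module.finrank ℝ E = 1) {e : E} (he : ‖e‖ = 1) :
    volume {x : E | ⟪x, e⟫ ∈ Icc (0 : ℝ) 1} = 1 := by
  let L : ℝ →ₗᵢ[ℝ] E :=
    { toLinearMap := LinearMap.toSpanSingleton ℝ E e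
      norm_map' := fun t => by
        simp [LinearMap.toSpanSingleton_apply, norm_smul, he] }
  let Le : ℝ ≃ₗᵢ[ℝ] E := LinearIsometryEquiv.ofSurjective L (by
    have h1 : Function.Injective L := L.injective
    have h2 : Module.finrank ℝ ℝ = Module.finrank ℝ E := by rw [hn]; simp
    exact (LinearMap.injective_iff_surjective_of_finrank_eq_finrank h2).1 h1)
  have hLe : ∀ t, Le t = t • e := fun t => rfl
  have hmp : MeasurePreserving Le volume volume := Le.measurePreserving
  have hS : MeasurableSet {x : E | ⟪x, e⟫ ∈ Icc (0 : ℝ) 1} :=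
    (isClosed_Icc.preimage (by fun_prop : Continuous fun x : E => ⟪x, e⟫)).measurableSet
  rw [← hmp.measure_preimage hS.nullMeasurableSet]
  have : Le ⁻¹' {x : E | ⟪x, e⟫ ∈ Icc (0 : ℝ) 1} = Icc (0 : ℝ) 1 := by
    ext t
    simp only [mem_preimage, hLe, mem_ofPred_eq, real_inner_smul_left, real_inner_self_eq_norm_sq,
      he, one_pow, mul_one]
  rw [this]
  simp

/-- The test function in dimension one. -/
theorem EN_test_one {p : ℝ≥0∞} (hp1 : 1 < p) (hp' : p ≠ ⊤) (hn : Module.finrank ℝ E = 1)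
    {e : E} (he : ‖e‖ = 1) : EN p 1 (fun x : E => max 0 (min ⟪x, e⟫ 1)) := by
  have hp0 : p ≠ 0 := by
    rintro rfl
    simp at hp1
  have hpr : 1 < p.toReal := by
    have := (ENNReal.toReal_lt_toReal ENNReal.one_ne_top hp').2 hp1
    simpa using this
  have hl1 : LipschitzWith 1 (fun x : E => ⟪x, e⟫) := by
    refine LipschitzWith.of_dist_le_mul fun a b => ?_
    rw [Real.dist_eq, dist_eq_norm, ← inner_sub_left, NNReal.coe_one, one_mul]
    have := abs_real_inner_le_norm (a - b) e
    rwa [he, mul_one] at this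
  have hl : LipschitzWith 1 (fun x : E => max 0 (min ⟪x, e⟫ 1)) :=
    (hl1.min_const 1).const_max 0
  refine EN_of_lipschitz ENNReal.one_ne_top hl ?_
  set S : Set E := {x : E | ⟪x, e⟫ ∈ Icc (0 : ℝ) 1} with hS
  have hSc : IsClosed S := isClosed_Icc.preimage (by fun_prop : Continuous fun x : E => ⟪x, e⟫)
  have hb : ∀ x, ‖fderiv ℝ (fun x : E => max 0 (min ⟪x, e⟫ 1)) x‖ ≤
      ‖S.indicator (fun _ => (1 : ℝ)) x‖ := by
    intro x
    by_cases hx : x ∈ S
    · rw [indicator_of_mem hx, norm_one]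
      have := norm_fderiv_le_of_lipschitz ℝ hl (x₀ := x)
      simpa using this
    · rw [indicator_of_notMem hx, norm_zero]
      have hc : Continuous (fun x : E => ⟪x, e⟫) := by fun_prop
      have hzero : fderiv ℝ (fun x : E => max 0 (min ⟪x, e⟫ 1)) x = 0 := by
        rcases lt_or_ge ⟪x, e⟫ 0 with h | h
        · have he1 : (fun x : E => max 0 (min ⟪x, e⟫ 1)) =ᶠ[𝓝 x] fun _ => 0 := by
            filter_upwards [hc.continuousAt.eventually (gt_mem_nhds h)] with y hy
            exact max_eq_left ((min_le_left _ _).trans hy.le)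
          rw [he1.fderiv_eq]
          simp
        · have h' : 1 < ⟪x, e⟫ := by
            by_contra hcon
            exact hx ⟨h, not_lt.1 hcon⟩
          have he1 : (fun x : E => max 0 (min ⟪x, e⟫ 1)) =ᶠ[𝓝 x] fun _ => 1 := by
            filter_upwards [hc.continuousAt.eventually (lt_mem_nhds h')] with y hy
            rw [min_eq_right hy.le]
            simp
          rw [he1.fderiv_eq]
          simp
      rw [hzero, norm_zero]
  refine (eLpNorm_mono hb).trans ?_
  rw [eLpNorm_indicator_const hSc.measurableSet hp0 hp', volume_slab_one hn he]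
  simp

end Pool.Agent.MP_f42450_an
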