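import Pool.Agent.MP_f42450_an.Sobolev

/-!
# Mollification of functions with a weak gradient in `L^p`
-/

open MeasureTheory Metric Set Filter Topology
open scoped ENNReal NNReal RealInnerProductSpace ContDiff

namespace Pool.Agent.MP_f42450_an

variable {E : Type*} [NormedAddCommGroup E] [InnerProductSpace ℝ E] [FiniteDimensional ℝ E]
  [MeasurableSpace E] [BorelSpace E]

/-- Jensen for a probability density, in lower integral form. -/
theorem lintegral_mul_rpow_le {p : ℝ} (hp : 1 < p) {g ρ : E → ℝ≥0∞}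
    (hg : AEMeasurable g volume) (hρ : Measurable ρ) (hρ1 : ∫⁻ y, ρ y = 1) :
    (∫⁻ y, ρ y * g y) ^ p ≤ ∫⁻ y, ρ y * g y ^ p := by
  have hp0 : 0 < p := by linarith
  obtain ⟨q, hq⟩ : ∃ q : ℝ, p.HolderConjugate q := ⟨p.conjExponent, Real.HolderConjugate.conjExponent hp⟩
  set ν : Measure E := volume.withDensity ρ with hν
  have hνu : ν univ = 1 := by
    rw [hν, withDensity_apply _ MeasurableSet.univ, setLIntegral_univ, hρ1]
  have hac : ν ≪ volume := withDensity_absolutelyContinuous _ _
  have e1 : ∀ f : E → ℝ≥0∞, AEMeasurable f volume → ∫⁻ y, ρ y * f y = ∫⁻ y, f y ∂ν := by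
    intro f hf
    rw [hν, lintegral_withDensity_eq_lintegral_mul₀ hρ.aemeasurable hf]
    rfl
  rw [e1 g hg, e1 _ (hg.pow_const p)]
  have h := ENNReal.lintegral_mul_le_Lp_mul_Lq ν hq (f := g) (g := fun _ => 1)
    (hg.mono_ac hac) aemeasurable_const
  simp only [Pi.mul_apply, ENNReal.one_rpow, lintegral_const, hνu, mul_one] at h
  calc (∫⁻ y, g y ∂ν) ^ p ≤ ((∫⁻ a, g a ^ p ∂ν) ^ (1 / p)) ^ p := by gcongr
    _ = ∫⁻ a, g a ^ p ∂ν := by
        rw [← ENNReal.rpow_mul, one_div, inv_mul_cancel₀ hp0.ne', ENNReal.rpow_one]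

section one

variable {p C : ℝ≥0∞}

/-- Young's inequality for a probability density. -/
theorem eLpNorm_average_le (hp : 1 < p) (hp' : p ≠ ⊤) {G : E → E} (hG : MemLp G p volume)
    {ρ : E → ℝ} (hρc : Continuous ρ)
    (hρ1 : ∫⁻ y, ENNReal.ofReal (ρ y) = 1)
    {F : Type*} [NormedAddCommGroup F] {D : E → F}
    (hD : ∀ x, ‖D x‖ₑ ≤ ∫⁻ y, ENNReal.ofReal (ρ (x - y)) * ‖G y‖ₑ) :
    eLpNorm D p volume ≤ eLpNorm G p volume := by
  have hp0 : p ≠ 0 := by
    rintro rfl
    simp at hp
  have hpr : 1 < p.toReal := by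
    have := (ENNReal.toReal_lt_toReal ENNReal.one_ne_top hp').2 hp
    simpa using this
  have hpos : 0 < p.toReal := by linarith
  -- replace `G` by a measurable representative
  have hGm : AEMeasurable (fun y => ‖G y‖ₑ) (volume : Measure E) := hG.aestronglyMeasurable.enorm
  obtain ⟨γ, hγm, hγe⟩ := hGm
  have hD' : ∀ x, ‖D x‖ₑ ≤ ∫⁻ y, ENNReal.ofReal (ρ (x - y)) * γ y := by
    intro x
    refine (hD x).trans (le_of_eq (lintegral_congr_ae ?_))
    filter_upwards [hγe] with y hy
    rw [hy]
  rw [eLpNorm_eq_lintegral_rpow_enorm_toReal hp0 hp', eLpNorm_eq_lintegral_rpow_enorm_toReal hp0 hp']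
  refine ENNReal.rpow_le_rpow ?_ (by positivity)
  have hm : ∀ x : E, Measurable (fun y : E => ENNReal.ofReal (ρ (x - y))) := by
    intro x
    exact (hρc.comp (continuous_const.sub continuous_id)).measurable.ennreal_ofReal
  calc ∫⁻ x, ‖D x‖ₑ ^ p.toReal
      ≤ ∫⁻ x, ∫⁻ y, ENNReal.ofReal (ρ (x - y)) * γ y ^ p.toReal := by
        refine lintegral_mono fun x => ?_
        refine (ENNReal.rpow_le_rpow (hD' x) hpos.le).trans ?_
        refine lintegral_mul_rpow_le hpr hγm.aemeasurable (hm x) ?_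
        rw [lintegral_sub_left_eq_self (fun y => ENNReal.ofReal (ρ y)) x, hρ1]
    _ = ∫⁻ y, ∫⁻ x, ENNReal.ofReal (ρ (x - y)) * γ y ^ p.toReal := by
        refine lintegral_lintegral_swap ?_
        refine Measurable.aemeasurable ?_
        refine Measurable.mul ?_ ?_
        · exact (hρc.comp (continuous_fst.sub continuous_snd)).measurable.ennreal_ofReal
        · exact (hγm.comp measurable_snd).pow_const _
    _ = ∫⁻ y, γ y ^ p.toReal := by
        refine lintegral_congr fun y => ?_
        rw [lintegral_mul_const]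
        · rw [lintegral_sub_right_eq_self (fun x => ENNReal.ofReal (ρ x)) y, hρ1, one_mul]
        · exact (hρc.comp (continuous_id.sub continuous_const)).measurable.ennreal_ofReal
    _ = ∫⁻ y, ‖G y‖ₑ ^ p.toReal := by
        refine lintegral_congr_ae ?_
        filter_upwards [hγe] with y hy
        rw [hy]

theorem exists_mollify (hp : 1 < p) (hp' : p ≠ ⊤) {u : E → ℝ} (hu : EN p C u) :
    ∃ U : ℕ → E → ℝ, (∀ k, ContDiff ℝ ∞ (U k)) ∧ (∀ k, ∃ K, LipschitzWith K (U k)) ∧
      (∀ k, eLpNorm (fderiv ℝ (U k)) p volume ≤ C) ∧ TendstoLocallyUniformly U u atTop := by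
  obtain ⟨huc, G, hG, hw, hGC⟩ := hu
  have hpr : 1 < p.toReal := by
    have := (ENNReal.toReal_lt_toReal ENNReal.one_ne_top hp').2 hp
    simpa using this
  -- the bumps
  let φ : ℕ → ContDiffBump (0 : E) := fun k =>
    ⟨1 / (2 * ((k : ℝ) + 1)), 1 / ((k : ℝ) + 1), by positivity, by
      apply one_div_lt_one_div_of_lt (by positivity); linarith [show (0 : ℝ) ≤ k by positivity]⟩
  set ρ : ℕ → E → ℝ := fun k => (φ k).normed volume with hρ
  have ρs : ∀ k, ContDiff ℝ ∞ (ρ k) := fun k => (φ k).contDiff_normed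
  have ρc : ∀ k, HasCompactSupport (ρ k) := fun k => (φ k).hasCompactSupport_normed
  have ρ0 : ∀ k x, 0 ≤ ρ k x := fun k x => (φ k).nonneg_normed x
  have ρ1 : ∀ k, ∫⁻ y, ENNReal.ofReal (ρ k y) = 1 := by
    intro k
    rw [← ofReal_integral_eq_lintegral_ofReal (φ k).integrable_normed
      (Eventually.of_forall (ρ0 k)), (φ k).integral_normed, ENNReal.ofReal_one]
  set U : ℕ → E → ℝ := fun k => convolution (ρ k) u (ContinuousLinearMap.lsmul ℝ ℝ) volume with hU
  have hloc : LocallyIntegrable u volume := huc.locallyIntegrable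
  have Us : ∀ k, ContDiff ℝ ∞ (U k) := fun k =>
    (ρc k).contDiff_convolution_left _ (ρs k) hloc
  obtain ⟨q, hq⟩ : ∃ q : ℝ≥0∞, p.HolderConjugate q :=
    ⟨(1 - p⁻¹)⁻¹, ENNReal.HolderConjugate.inv_one_sub_inv' hp.le⟩
  have : p.HolderTriple q 1 := hq
  -- reflected translates of the bumps
  have ts : ∀ k x, ContDiff ℝ ∞ (fun y => ρ k (x - y)) := fun k x =>
    (ρs k).comp (contDiff_const.sub contDiff_id)
  have tc : ∀ k x, HasCompactSupport (fun y => ρ k (x - y)) := fun k x =>
    (ρc k).comp_homeomorph (Homeomorph.subLeft x)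
  -- derivative formula
  have hder : ∀ k x v, fderiv ℝ (U k) x v = ∫ y, ⟪G y, v⟫ * ρ k (x - y) := by
    intro k x v
    have h1 := (HasCompactSupport.hasFDerivAt_convolution_left (μ := volume)
      (ContinuousLinearMap.lsmul ℝ ℝ) (ρc k) ((ρs k).of_le (by simp)) hloc x).fderiv
    have h2 : fderiv ℝ (U k) x v = ∫ t, fderiv ℝ (ρ k) t v * u (x - t) := by
      rw [hU]
      simp only
      rw [h1, convolution_def, ContinuousLinearMap.integral_apply]
      · refine integral_congr_ae (Eventually.of_forall fun t => ?_)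
        simp [ContinuousLinearMap.precompL_apply]
      · have hce := HasCompactSupport.convolutionExists_left (μ := volume)
          (ContinuousLinearMap.precompL E (ContinuousLinearMap.lsmul ℝ ℝ)) ((ρc k).fderiv ℝ)
          ((ρs k).continuous_fderiv (by simp)) hloc x
        exact hce
    have h3 : ∫ t, fderiv ℝ (ρ k) t v * u (x - t) = ∫ y, fderiv ℝ (ρ k) (x - y) v * u y := by
      rw [← integral_sub_left_eq_self (fun t => fderiv ℝ (ρ k) t v * u (x - t)) volume x]
      refine integral_congr_ae (Eventually.of_forall fun y => ?_)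
      simp
    have h4 : ∀ y, fderiv ℝ (fun y => ρ k (x - y)) y v = - fderiv ℝ (ρ k) (x - y) v := by
      intro y
      have hd : HasFDerivAt (ρ k) (fderiv ℝ (ρ k) (x - y)) (x - y) :=
        ((ρs k).differentiable (by simp) (x - y)).hasFDerivAt
      have hd2 : HasFDerivAt (fun y => x - y) (-(ContinuousLinearMap.id ℝ E)) y :=
        (hasFDerivAt_id y).const_sub x
      have := (hd.comp y hd2).fderiv
      have h5 : fderiv ℝ (fun y => ρ k (x - y)) y =
          (fderiv ℝ (ρ k) (x - y)).comp (-(ContinuousLinearMap.id ℝ E)) := this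
      rw [h5]
      simp
    have h5 := hw (fun y => ρ k (x - y)) (ts k x) (tc k x) v
    rw [h2, h3]
    have h6 : ∫ y, u y * fderiv ℝ (fun y => ρ k (x - y)) y v =
        - ∫ y, fderiv ℝ (ρ k) (x - y) v * u y := by
      rw [← integral_neg]
      refine integral_congr_ae (Eventually.of_forall fun y => ?_)
      simp only [h4]
      ring
    rw [h6] at h5
    linarith
  have hbd : ∀ k x, ‖fderiv ℝ (U k) x‖ₑ ≤ ∫⁻ y, ENNReal.ofReal (ρ k (x - y)) * ‖G y‖ₑ := by
    intro k x
    have hint : Integrable (fun y => ‖G y‖ * ρ k (x - y)) :=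
      hG.norm.integrable_mul (memLp_test (ts k x) (tc k x) q)
    have hnn : 0 ≤ ∫ y, ‖G y‖ * ρ k (x - y) :=
      integral_nonneg fun y => mul_nonneg (norm_nonneg _) (ρ0 k _)
    have h1 : ‖fderiv ℝ (U k) x‖ ≤ ∫ y, ‖G y‖ * ρ k (x - y) := by
      refine ContinuousLinearMap.opNorm_le_bound _ hnn fun v => ?_
      rw [hder, ← integral_mul_const]
      refine norm_integral_le_of_norm_le (hint.mul_const _) (Eventually.of_forall fun y => ?_)
      rw [norm_mul, Real.norm_of_nonneg (ρ0 k _)]
      have := norm_inner_le_norm (𝕜 := ℝ) (G y) v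
      calc ‖⟪G y, v⟫‖ * ρ k (x - y) ≤ (‖G y‖ * ‖v‖) * ρ k (x - y) := by
            gcongr
            exact ρ0 k _
        _ = ‖G y‖ * ρ k (x - y) * ‖v‖ := by ring
    rw [← ofReal_norm]
    refine (ENNReal.ofReal_le_ofReal h1).trans (le_of_eq ?_)
    rw [ofReal_integral_eq_lintegral_ofReal hint
      (Eventually.of_forall fun y => mul_nonneg (norm_nonneg _) (ρ0 k _))]
    refine lintegral_congr fun y => ?_
    rw [ENNReal.ofReal_mul (norm_nonneg _), ofReal_norm, mul_comm]
  refine ⟨U, Us, fun k => ?_, fun k => ?_, ?_⟩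
  · -- Lipschitz
    obtain ⟨B, hB⟩ : ∃ B : ℝ≥0, ∀ x, ‖fderiv ℝ (U k) x‖₊ ≤ B := by
      set T : ℝ≥0∞ := eLpNorm (fun y => ‖G y‖) p volume * eLpNorm (ρ k) q volume with hT
      have hTt : T ≠ ⊤ := ENNReal.mul_ne_top hG.norm.eLpNorm_ne_top
        (memLp_test (ρs k) (ρc k) q).eLpNorm_ne_top
      refine ⟨T.toNNReal, fun x => ?_⟩
      have h1 : ‖fderiv ℝ (U k) x‖ₑ ≤ T := by
        refine (hbd k x).trans ?_
        have h2 : ∫⁻ y, ENNReal.ofReal (ρ k (x - y)) * ‖G y‖ₑ =
            eLpNorm ((fun y => ‖G y‖) • (fun y => ρ k (x - y))) 1 volume := by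
          rw [eLpNorm_one_eq_lintegral_enorm]
          refine lintegral_congr fun y => ?_
          rw [Pi.smul_apply', smul_eq_mul, enorm_mul, enorm_norm, mul_comm]
          congr 1
          rw [← ofReal_norm, Real.norm_of_nonneg (ρ0 k _)]
        rw [h2]
        refine (eLpNorm_smul_le_mul_eLpNorm (p := p) (q := q) (r := 1)
          (memLp_test (ts k x) (tc k x) q).aestronglyMeasurable
          hG.norm.aestronglyMeasurable).trans ?_
        rw [hT]
        gcongr
        have mp : MeasurePreserving (fun y => x - y) (volume : Measure E) volume :=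
          Measure.measurePreserving_sub_left volume x
        have := eLpNorm_comp_measurePreserving (p := q)
          (memLp_test (ρs k) (ρc k) q).aestronglyMeasurable mp
        exact le_of_eq this
      rw [← ENNReal.coe_le_coe, ENNReal.coe_toNNReal hTt]
      exact h1
    exact ⟨B, lipschitzWith_of_nnnorm_fderiv_le ((Us k).differentiable (by simp)) hB⟩
  · exact (eLpNorm_average_le hp hp' hG (ρs k).continuous (ρ1 k) (hbd k)).trans hGC
  · rw [Metric.tendstoLocallyUniformly_iff]
    intro ε hε x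
    obtain ⟨δ, hδ, hδu⟩ := Metric.continuousAt_iff.1 (huc.continuousAt (x := x)) (ε / 4)
      (by positivity)
    refine ⟨ball x (δ / 2), ball_mem_nhds x (by positivity), ?_⟩
    obtain ⟨k0, hk0⟩ := exists_nat_one_div_lt (show (0 : ℝ) < δ / 2 by positivity)
    refine eventually_atTop.2 ⟨k0, fun k hk y hy => ?_⟩
    have hr : (φ k).rOut ≤ δ / 2 := by
      refine le_trans ?_ hk0.le
      have : (k0 : ℝ) ≤ k := by exact_mod_cast hk
      exact one_div_le_one_div_of_le (by positivity) (by linarith)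
    have hyx : dist y x < δ / 2 := hy
    have h1 : dist (u y) (u x) < ε / 4 := hδu (by linarith)
    have h2 : dist (U k y) (u y) ≤ ε / 2 := by
      refine ContDiffBump.dist_normed_convolution_le huc.aestronglyMeasurable fun z hz => ?_
      have hzy : dist z y < δ / 2 := lt_of_lt_of_le hz hr
      have h3 : dist (u z) (u x) < ε / 4 := by
        refine hδu ?_
        have := dist_triangle z y x
        linarith
      have := dist_triangle_right (u z) (u y) (u x)
      linarith
    rw [dist_comm]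
    linarith

end one

end Pool.Agent.MP_f42450_an
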