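import Pool.Agent.MP_f42450_an.Polar

/-!
# Morrey's inequality (equicontinuity of functions with bounded `p`-energy, `p > dim`)
-/

open MeasureTheory Metric Set Filter Topology
open scoped ENNReal NNReal RealInnerProductSpace ContDiff

set_option linter.unusedSectionVars false

namespace Pool.Agent.MP_f42450_an

variable {E : Type*} [NormedAddCommGroup E] [InnerProductSpace ℝ E] [FiniteDimensional ℝ E]
  [MeasurableSpace E] [BorelSpace E]

/-- Fundamental theorem of calculus along a segment. -/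
theorem enorm_sub_le_lintegral {u : E → ℝ} (hu : ContDiff ℝ 1 u) (x z : E) :
    ‖u z - u x‖ₑ ≤ ∫⁻ t in Ioc (0 : ℝ) 1, ‖fderiv ℝ u (x + t • (z - x))‖ₑ * ‖z - x‖ₑ := by
  have hcd : Continuous (fderiv ℝ u) := hu.continuous_fderiv (by norm_num)
  have hd : ∀ t ∈ uIcc (0 : ℝ) 1, HasDerivAt (fun t : ℝ => u (x + t • (z - x)))
      (fderiv ℝ u (x + t • (z - x)) (z - x)) t := by
    intro t _
    have h1 : HasFDerivAt u (fderiv ℝ u (x + t • (z - x))) (x + t • (z - x)) :=
      (hu.differentiable (by norm_num) _).hasFDerivAt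
    have h2 : HasDerivAt (fun t : ℝ => x + t • (z - x)) (z - x) t := by
      have := ((hasDerivAt_id t).smul_const (z - x)).const_add x
      simpa using this
    exact h1.comp_hasDerivAt t h2
  have hc : Continuous (fun t : ℝ => fderiv ℝ u (x + t • (z - x)) (z - x)) := by
    have : Continuous (fun t : ℝ => fderiv ℝ u (x + t • (z - x))) := hcd.comp (by fun_prop)
    exact this.clm_apply continuous_const
  have hftc := intervalIntegral.integral_eq_sub_of_hasDerivAt hd (hc.intervalIntegrable 0 1)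
  simp only [one_smul, zero_smul, add_zero, add_sub_cancel] at hftc
  rw [← hftc, intervalIntegral.integral_of_le zero_le_one]
  refine (enorm_integral_le_lintegral_enorm _).trans ?_
  refine lintegral_mono fun t => ?_
  exact ContinuousLinearMap.le_opENorm _ _

/-- scaling in the `L^p` integral. -/
theorem lintegral_comp_affine {g : E → ℝ≥0∞} (hg : Measurable g) (x : E) {t : ℝ} (ht : 0 < t) :
    ∫⁻ z, g (x + t • (z - x)) =
      ENNReal.ofReal ((t ^ Module.finrank ℝ E)⁻¹) * ∫⁻ z, g z := by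
  have h1 : ∫⁻ z, g (x + t • (z - x)) = ∫⁻ z, g (x + t • z) :=
    lintegral_sub_right_eq_self (fun z => g (x + t • z)) x
  have h2 : ∫⁻ z, g (x + t • z) = ∫⁻ z, g (x + z) ∂(Measure.map (fun z : E => t • z) volume) := by
    rw [lintegral_map (f := fun z => g (x + z)) (hg.comp (measurable_const_add x))
      (measurable_const_smul t)]
  rw [h1, h2, Measure.map_addHaar_smul _ ht.ne', lintegral_smul_measure,
    lintegral_add_left_eq_self, abs_of_nonneg (by positivity), smul_eq_mul]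

theorem lintegral_rpow_Ioc_lt_top {a : ℝ} (ha : a < 1) :
    ∫⁻ t in Ioc (0 : ℝ) 1, ENNReal.ofReal (t ^ (-a)) < ⊤ := by
  have h : IntervalIntegrable (fun x : ℝ => x ^ (-a)) volume 0 1 :=
    intervalIntegral.intervalIntegrable_rpow' (by linarith)
  rw [intervalIntegrable_iff_integrableOn_Ioc_of_le zero_le_one] at h
  have h2 := h.2
  rw [HasFiniteIntegral] at h2
  refine lt_of_le_of_lt (lintegral_mono fun t => ?_) h2
  exact Real.ofReal_le_enorm _

/-- The basic average estimate. -/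
theorem lintegral_ball_sub_le {p : ℝ} (hp : 1 < p) {u : E → ℝ} (hu : ContDiff ℝ 1 u)
    (x : E) {D : ℝ} (B : Set E) (hB : MeasurableSet B) (hBD : ∀ z ∈ B, ‖z - x‖ ≤ D) :
    ∫⁻ z in B, ‖u z - u x‖ₑ ≤ ENNReal.ofReal D *
      ((∫⁻ z, ‖fderiv ℝ u z‖ₑ ^ p) ^ (1 / p) * (volume B) ^ (1 - 1 / p) *
        ∫⁻ t in Ioc (0 : ℝ) 1, ENNReal.ofReal (t ^ (-(Module.finrank ℝ E / p)))) := by
  have hp0 : 0 < p := by linarith
  have hcd : Continuous (fderiv ℝ u) := hu.continuous_fderiv (by norm_num)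
  set g : E → ℝ≥0∞ := fun z => ‖fderiv ℝ u z‖ₑ with hg
  have gm : Measurable g := hcd.enorm.measurable
  have hjm : Measurable (Function.uncurry fun (z : E) (t : ℝ) => g (x + t • (z - x))) := by
    have : Continuous (Function.uncurry fun (z : E) (t : ℝ) => g (x + t • (z - x))) := by
      have : Continuous (fun q : E × ℝ => x + q.2 • (q.1 - x)) := by fun_prop
      exact hcd.enorm.comp this
    exact this.measurable
  have hpc : p.HolderConjugate p.conjExponent := Real.HolderConjugate.conjExponent hp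
  have hq : 1 / p.conjExponent = 1 - 1 / p := by
    have := hpc.inv_add_inv_eq_one
    simp only [one_div]
    linarith
  have step1 : ∫⁻ z in B, ‖u z - u x‖ₑ ≤
      ∫⁻ z in B, ∫⁻ t in Ioc (0 : ℝ) 1, ENNReal.ofReal D * g (x + t • (z - x)) := by
    refine setLIntegral_mono' hB fun z hz => ?_
    refine (enorm_sub_le_lintegral hu x z).trans ?_
    refine lintegral_mono fun t => ?_
    rw [mul_comm]
    have : ‖z - x‖ₑ ≤ ENNReal.ofReal D := by
      rw [← ofReal_norm]
      exact ENNReal.ofReal_le_ofReal (hBD z hz)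
    exact mul_le_mul' this le_rfl
  have step2 : ∫⁻ z in B, ∫⁻ t in Ioc (0 : ℝ) 1, ENNReal.ofReal D * g (x + t • (z - x)) =
      ∫⁻ t in Ioc (0 : ℝ) 1, ∫⁻ z in B, ENNReal.ofReal D * g (x + t • (z - x)) := by
    refine lintegral_lintegral_swap ?_
    exact (measurable_const.mul hjm).aemeasurable
  have step3 : ∀ t ∈ Ioc (0 : ℝ) 1, ∫⁻ z in B, ENNReal.ofReal D * g (x + t • (z - x)) ≤
      ENNReal.ofReal D * ((∫⁻ z, g z ^ p) ^ (1 / p) * (volume B) ^ (1 - 1 / p) *
        ENNReal.ofReal (t ^ (-(Module.finrank ℝ E / p)))) := by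
    intro t ht
    have hgt : Measurable (fun z => g (x + t • (z - x))) := by
      have h1 : Continuous (fun z : E => x + t • (z - x)) := by fun_prop
      exact (hcd.enorm.comp h1).measurable
    rw [lintegral_const_mul _ hgt]
    refine mul_le_mul' le_rfl ?_
    have hH := ENNReal.lintegral_mul_le_Lp_mul_Lq (volume.restrict B) hpc
      (f := fun z => g (x + t • (z - x))) (g := fun _ => 1) hgt.aemeasurable aemeasurable_const
    simp only [Pi.mul_apply, mul_one, ENNReal.one_rpow, lintegral_const, one_mul,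
      Measure.restrict_apply MeasurableSet.univ, univ_inter, hq] at hH
    refine hH.trans ?_
    have h5 : ∫⁻ z in B, g (x + t • (z - x)) ^ p ≤
        ENNReal.ofReal ((t ^ Module.finrank ℝ E)⁻¹) * ∫⁻ z, g z ^ p := by
      refine (setLIntegral_le_lintegral _ _).trans ?_
      rw [← lintegral_comp_affine (gm.pow_const p) x ht.1]
    calc (∫⁻ z in B, g (x + t • (z - x)) ^ p) ^ (1 / p) * volume B ^ (1 - 1 / p)
        ≤ (ENNReal.ofReal ((t ^ Module.finrank ℝ E)⁻¹) * ∫⁻ z, g z ^ p) ^ (1 / p) *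
          volume B ^ (1 - 1 / p) := by
          gcongr
      _ = _ := by
          rw [ENNReal.mul_rpow_of_nonneg _ _ (by positivity),
            ENNReal.ofReal_rpow_of_nonneg (inv_nonneg.2 (pow_nonneg ht.1.le _)) (by positivity)]
          have h6 : ((t ^ Module.finrank ℝ E)⁻¹) ^ (1 / p) =
              t ^ (-((Module.finrank ℝ E : ℝ) / p)) := by
            rw [← Real.rpow_natCast, ← Real.rpow_neg ht.1.le, ← Real.rpow_mul ht.1.le]
            congr 1
            ring
          rw [h6]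
          ring
  calc ∫⁻ z in B, ‖u z - u x‖ₑ
      ≤ ∫⁻ t in Ioc (0 : ℝ) 1, ∫⁻ z in B, ENNReal.ofReal D * g (x + t • (z - x)) :=
        step1.trans step2.le
    _ ≤ ∫⁻ t in Ioc (0 : ℝ) 1, ENNReal.ofReal D *
          ((∫⁻ z, g z ^ p) ^ (1 / p) * (volume B) ^ (1 - 1 / p) *
          ENNReal.ofReal (t ^ (-(Module.finrank ℝ E / p)))) :=
        setLIntegral_mono' measurableSet_Ioc step3
    _ = _ := by
        have hmm : Measurable (fun t : ℝ => ENNReal.ofReal (t ^ (-(Module.finrank ℝ E / p)))) :=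
          (measurable_id.pow_const _).ennreal_ofReal
        rw [lintegral_const_mul _ (hmm.const_mul _), lintegral_const_mul _ hmm]

/-- Morrey's inequality for smooth functions, with an explicit constant depending only on
the space, `p` and the bound on the energy. -/
theorem morrey_smooth {p : ℝ≥0∞} (hp1 : 1 < p) (hp' : p ≠ ⊤)
    (hpn : (Module.finrank ℝ E : ℝ) < p.toReal) {C : ℝ≥0∞} (hC : C ≠ ⊤) :
    ∃ M : ℝ, 0 ≤ M ∧ ∀ u : E → ℝ, ContDiff ℝ 1 u → eLpNorm (fderiv ℝ u) p volume ≤ C →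
      ∀ x y, |u x - u y| ≤ M * ‖x - y‖ ^ (1 - Module.finrank ℝ E / p.toReal) := by
  have hp0 : p ≠ 0 := by
    rintro rfl
    simp at hp1
  have hpr : 1 < p.toReal := by
    have := (ENNReal.toReal_lt_toReal ENNReal.one_ne_top hp').2 hp1
    simpa using this
  have hpos : 0 < p.toReal := by linarith
  set n := Module.finrank ℝ E with hn
  set s : ℝ := n / p.toReal with hs
  have hs1 : s < 1 := by rw [hs, div_lt_one hpos]; exact hpn
  set κ : ℝ≥0∞ := ∫⁻ t in Ioc (0 : ℝ) 1, ENNReal.ofReal (t ^ (-s)) with hκ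
  have hκt : κ ≠ ⊤ := (lintegral_rpow_Ioc_lt_top hs1).ne
  set w₁ : ℝ≥0∞ := volume (ball (0 : E) 1) with hw₁
  have hw₁0 : w₁ ≠ 0 := (measure_ball_pos _ _ one_pos).ne'
  have hw₁t : w₁ ≠ ⊤ := measure_ball_lt_top.ne
  set M : ℝ≥0∞ := 4 * (C * κ * w₁ ^ (-(1 / p.toReal))) with hM
  have hMt : M ≠ ⊤ := by
    refine ENNReal.mul_ne_top (by norm_num) (ENNReal.mul_ne_top (ENNReal.mul_ne_top hC hκt) ?_)
    exact ENNReal.rpow_ne_top_of_ne_zero hw₁0 hw₁t
  refine ⟨M.toReal, ENNReal.toReal_nonneg, fun u hu hCu x y => ?_⟩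
  rcases eq_or_ne x y with rfl | hxy
  · simp only [sub_self, abs_zero, norm_zero]
    positivity
  have hr : 0 < ‖x - y‖ := norm_pos_iff.2 (sub_ne_zero.2 hxy)
  set r := ‖x - y‖ with hrdef
  set B := ball x r with hB
  have hBm : MeasurableSet B := measurableSet_ball
  have hvB : volume B = ENNReal.ofReal (r ^ n) * w₁ := Measure.addHaar_ball_of_pos _ _ hr
  have hvB0 : volume B ≠ 0 := (measure_ball_pos _ _ hr).ne'
  have hvBt : volume B ≠ ⊤ := measure_ball_lt_top.ne
  have hE : (∫⁻ z, ‖fderiv ℝ u z‖ₑ ^ p.toReal) ^ (1 / p.toReal) ≤ C := by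
    rw [← eLpNorm_eq_lintegral_rpow_enorm_toReal hp0 hp']
    exact hCu
  have e1 := lintegral_ball_sub_le hpr hu x (D := 2 * r) B hBm (fun z hz => by
    have : ‖z - x‖ < r := by simpa [hB, dist_eq_norm] using hz
    linarith)
  have e2 := lintegral_ball_sub_le hpr hu y (D := 2 * r) B hBm (fun z hz => by
    have h1 : ‖z - x‖ < r := by simpa [hB, dist_eq_norm] using hz
    have h2 : ‖z - y‖ ≤ ‖z - x‖ + ‖x - y‖ := norm_sub_le_norm_sub_add_norm_sub z x y
    linarith)
  set T : ℝ≥0∞ := ENNReal.ofReal (2 * r) * (C * (volume B) ^ (1 - 1 / p.toReal) * κ) with hT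
  have e1' : ∫⁻ z in B, ‖u z - u x‖ₑ ≤ T := by
    refine e1.trans ?_
    rw [hT]
    gcongr
  have e2' : ∫⁻ z in B, ‖u z - u y‖ₑ ≤ T := by
    refine e2.trans ?_
    rw [hT]
    gcongr
  have e3 : ‖u x - u y‖ₑ * volume B ≤ T + T := by
    calc ‖u x - u y‖ₑ * volume B = ∫⁻ _ in B, ‖u x - u y‖ₑ := by
          rw [lintegral_const, Measure.restrict_apply MeasurableSet.univ, univ_inter]
      _ ≤ ∫⁻ z in B, (‖u z - u x‖ₑ + ‖u z - u y‖ₑ) := by
          refine lintegral_mono fun z => ?_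
          have : u x - u y = -(u z - u x) + (u z - u y) := by ring
          rw [this]
          refine (enorm_add_le _ _).trans ?_
          rw [enorm_neg]
      _ = (∫⁻ z in B, ‖u z - u x‖ₑ) + ∫⁻ z in B, ‖u z - u y‖ₑ := by
          rw [lintegral_add_left]
          exact (hu.continuous.sub continuous_const).enorm.measurable
      _ ≤ T + T := add_le_add e1' e2'
  have e4 : ‖u x - u y‖ₑ ≤ M * ENNReal.ofReal (r ^ (1 - s)) := by
    have h1 : ‖u x - u y‖ₑ ≤ (T + T) / volume B :=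
      (ENNReal.le_div_iff_mul_le (Or.inl hvB0) (Or.inl hvBt)).2 e3
    refine h1.trans (le_of_eq ?_)
    rw [ENNReal.div_eq_inv_mul, ← two_mul, hT, hM]
    have h2 : (volume B)⁻¹ * (volume B) ^ (1 - 1 / p.toReal) = (volume B) ^ (-(1 / p.toReal)) := by
      rw [← ENNReal.rpow_neg_one, ← ENNReal.rpow_add _ _ hvB0 hvBt]
      congr 1
      ring
    have h3 : (volume B) ^ (-(1 / p.toReal)) =
        ENNReal.ofReal (r ^ (-s)) * w₁ ^ (-(1 / p.toReal)) := by
      rw [hvB, ENNReal.mul_rpow_of_ne_top (by simp) hw₁t,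
        ENNReal.ofReal_rpow_of_pos (by positivity)]
      congr 2
      rw [← Real.rpow_natCast, ← Real.rpow_mul hr.le]
      congr 1
      rw [hs]
      ring
    have h4 : ENNReal.ofReal (r ^ (1 - s)) = ENNReal.ofReal r * ENNReal.ofReal (r ^ (-s)) := by
      rw [← ENNReal.ofReal_mul hr.le]
      congr 1
      rw [sub_eq_add_neg, Real.rpow_add hr, Real.rpow_one]
    have h5 : ENNReal.ofReal (2 * r) = 2 * ENNReal.ofReal r := by
      rw [ENNReal.ofReal_mul (by norm_num)]
      norm_num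
    calc (volume B)⁻¹ * (2 * (ENNReal.ofReal (2 * r) *
            (C * volume B ^ (1 - 1 / p.toReal) * κ)))
        = 2 * (ENNReal.ofReal (2 * r) * (C * ((volume B)⁻¹ *
            volume B ^ (1 - 1 / p.toReal)) * κ)) := by ring
      _ = _ := by
          rw [h2, h3, h4, h5]
          ring
  have e5 : |u x - u y| = (‖u x - u y‖ₑ).toReal := by
    rw [toReal_enorm, Real.norm_eq_abs]
  rw [e5]
  have e6 := ENNReal.toReal_mono (ENNReal.mul_ne_top hMt ENNReal.ofReal_ne_top) e4
  rw [ENNReal.toReal_mul, ENNReal.toReal_ofReal (by positivity)] at e6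
  exact e6

/-- Morrey's inequality. -/
theorem morrey {p : ℝ≥0∞} (hp1 : 1 < p) (hp' : p ≠ ⊤)
    (hpn : (Module.finrank ℝ E : ℝ) < p.toReal) {C : ℝ≥0∞} (hC : C ≠ ⊤) :
    ∃ M : ℝ, 0 ≤ M ∧ ∀ u : E → ℝ, EN p C u →
      ∀ x y, |u x - u y| ≤ M * ‖x - y‖ ^ (1 - Module.finrank ℝ E / p.toReal) := by
  obtain ⟨M, hM0, hM⟩ := morrey_smooth (E := E) hp1 hp' hpn hC
  refine ⟨M, hM0, fun u hu x y => ?_⟩
  obtain ⟨U, Us, _, Ue, Ut⟩ := exists_mollify hp1 hp' hu
  have t1 : Tendsto (fun k => U k x) atTop (𝓝 (u x)) := Ut.tendstoLocallyUniformlyOn.tendsto_at (mem_univ x)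
  have t2 : Tendsto (fun k => U k y) atTop (𝓝 (u y)) := Ut.tendstoLocallyUniformlyOn.tendsto_at (mem_univ y)
  exact le_of_tendsto (t1.sub t2).abs
    (Eventually.of_forall fun k => hM (U k) ((Us k).of_le (by simp)) (Ue k) x y)

end Pool.Agent.MP_f42450_an
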