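import Pool.Agent.MP_f42450_an.Mollify

/-!
# Polarization (two-point rearrangement) with respect to hyperplanes through the origin
-/

open MeasureTheory Metric Set Filter Topology
open scoped ENNReal NNReal RealInnerProductSpace ContDiff

set_option linter.unusedSectionVars false

namespace Pool.Agent.MP_f42450_an

variable {E : Type*} [NormedAddCommGroup E] [InnerProductSpace ℝ E] [FiniteDimensional ℝ E]

/-- Reflection in the hyperplane orthogonal to `ν`. -/
noncomputable def rf (ν : E) : E ≃ₗᵢ[ℝ] E := (ℝ ∙ ν)ᗮ.reflection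

theorem rf_apply {ν : E} (hν : ‖ν‖ = 1) (x : E) : rf ν x = x - (2 * ⟪x, ν⟫) • ν := by
  rw [rf, Submodule.reflection_orthogonal_apply, Submodule.reflection_singleton_apply]
  simp only [hν, RCLike.ofReal_real_eq_id, id, one_pow, div_one, real_inner_comm, neg_sub, mul_smul]
  module

theorem rf_rf (ν x : E) : rf ν (rf ν x) = x := by
  rw [rf, Submodule.reflection_reflection]

theorem inner_rf {ν : E} (hν : ‖ν‖ = 1) (x : E) : ⟪rf ν x, ν⟫ = - ⟪x, ν⟫ := by
  rw [rf_apply hν, inner_sub_left, real_inner_smul_left, real_inner_self_eq_norm_sq, hν]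
  ring

theorem norm_rf (ν x : E) : ‖rf ν x‖ = ‖x‖ := (rf ν).norm_map x

theorem rf_eq_self {ν : E} (hν : ‖ν‖ = 1) {x : E} (hx : ⟪x, ν⟫ = 0) : rf ν x = x := by
  rw [rf_apply hν, hx]
  simp

theorem norm_sub_rf_le {ν : E} (hν : ‖ν‖ = 1) {x y : E} (hx : 0 ≤ ⟪x, ν⟫) (hy : ⟪y, ν⟫ ≤ 0) :
    ‖x - rf ν y‖ ≤ ‖x - y‖ := by
  have h : ‖x - rf ν y‖ ^ 2 = ‖x - y‖ ^ 2 + 4 * (⟪y, ν⟫ * ⟪x, ν⟫) := by
    rw [rf_apply hν, show x - (y - (2 * ⟪y, ν⟫) • ν) = (x - y) + (2 * ⟪y, ν⟫) • ν by abel,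
      norm_add_sq_real, norm_smul, hν, real_inner_smul_right, inner_sub_left, mul_one,
      Real.norm_eq_abs, sq_abs]
    ring
  have h2 : ⟪y, ν⟫ * ⟪x, ν⟫ ≤ 0 := mul_nonpos_of_nonpos_of_nonneg hy hx
  have h3 : ‖x - rf ν y‖ ^ 2 ≤ ‖x - y‖ ^ 2 := by linarith
  exact (sq_le_sq₀ (norm_nonneg _) (norm_nonneg _)).1 h3

/-- Polarization of `f` with respect to the half space `{⟪x, ν⟫ ≥ 0}`. -/
noncomputable def pol (ν : E) (f : E → ℝ) (x : E) : ℝ :=
  if 0 ≤ ⟪x, ν⟫ then max (f x) (f (rf ν x)) else min (f x) (f (rf ν x))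

theorem pol_of_nonneg {ν : E} {f : E → ℝ} {x : E} (hx : 0 ≤ ⟪x, ν⟫) :
    pol ν f x = max (f x) (f (rf ν x)) := if_pos hx

theorem pol_of_nonpos {ν : E} (hν : ‖ν‖ = 1) {f : E → ℝ} {x : E} (hx : ⟪x, ν⟫ ≤ 0) :
    pol ν f x = min (f x) (f (rf ν x)) := by
  rcases hx.lt_or_eq with h | h
  · exact if_neg (not_le.2 h)
  · rw [pol_of_nonneg (le_of_eq h.symm), rf_eq_self hν h, max_self, min_self]

theorem pol_mem (ν : E) (f : E → ℝ) (x : E) : pol ν f x = f x ∨ pol ν f x = f (rf ν x) := by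
  unfold pol
  split_ifs
  · exact max_choice _ _
  · exact min_choice _ _

theorem pol_add (ν : E) (hν : ‖ν‖ = 1) (f : E → ℝ) (x : E) :
    pol ν f x + pol ν f (rf ν x) = f x + f (rf ν x) := by
  rcases le_total 0 ⟪x, ν⟫ with h | h
  · have h' : ⟪rf ν x, ν⟫ ≤ 0 := by rw [inner_rf hν]; linarith
    rw [pol_of_nonneg h, pol_of_nonpos hν h', rf_rf, min_comm, max_add_min]
  · have h' : 0 ≤ ⟪rf ν x, ν⟫ := by rw [inner_rf hν]; linarith
    rw [pol_of_nonneg h', pol_of_nonpos hν h, rf_rf, max_comm, min_add_max]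

theorem continuous_pol {ν : E} (hν : ‖ν‖ = 1) {f : E → ℝ} (hf : Continuous f) :
    Continuous (pol ν f) := by
  have hrf : Continuous (rf ν) := (rf ν).continuous
  refine Continuous.if_le (by fun_prop) (by fun_prop) continuous_const (by fun_prop) ?_
  intro x hx
  rw [rf_eq_self hν hx.symm, max_self, min_self]

theorem pol_sub_le (ν : E) {f g : E → ℝ} {x : E} {ε : ℝ} (h1 : |f x - g x| ≤ ε)
    (h2 : |f (rf ν x) - g (rf ν x)| ≤ ε) : |pol ν f x - pol ν g x| ≤ ε := by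
  unfold pol
  split_ifs
  · exact (abs_max_sub_max_le_max _ _ _ _).trans (max_le h1 h2)
  · exact (abs_min_sub_min_le_max _ _ _ _).trans (max_le h1 h2)

theorem pol_dist_le {ν : E} (hν : ‖ν‖ = 1) {f : E → ℝ} {K : ℝ}
    (hf : ∀ x y, |f x - f y| ≤ K * ‖x - y‖) (hK : 0 ≤ K) (x y : E) :
    |pol ν f x - pol ν f y| ≤ K * ‖x - y‖ := by
  have hrr : ‖rf ν x - rf ν y‖ = ‖x - y‖ := by rw [← map_sub, norm_rf]
  have key : ∀ x y, 0 ≤ ⟪x, ν⟫ → ⟪y, ν⟫ ≤ 0 → |pol ν f x - pol ν f y| ≤ K * ‖x - y‖ := by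
    intro x y hx hy
    have hrr : ‖rf ν x - rf ν y‖ = ‖x - y‖ := by rw [← map_sub, norm_rf]
    have hxy : ‖x - rf ν y‖ ≤ ‖x - y‖ := norm_sub_rf_le hν hx hy
    have hyx : ‖rf ν x - y‖ ≤ ‖x - y‖ := by
      have : rf ν x - y = rf ν (x - rf ν y) := by rw [map_sub, rf_rf]
      rw [this, norm_rf]
      exact hxy
    rcases pol_mem ν f x with h1 | h1 <;> rcases pol_mem ν f y with h2 | h2 <;> rw [h1, h2]
    · exact hf _ _
    · exact (hf _ _).trans (by gcongr)
    · exact (hf _ _).trans (by gcongr)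
    · exact (hf _ _).trans (by rw [hrr])
  rcases le_total 0 ⟪x, ν⟫ with hx | hx <;> rcases le_total 0 ⟪y, ν⟫ with hy | hy
  · rw [pol_of_nonneg hx, pol_of_nonneg hy]
    refine (abs_max_sub_max_le_max _ _ _ _).trans (max_le (hf _ _) ((hf _ _).trans ?_))
    rw [hrr]
  · exact key x y hx hy
  · rw [abs_sub_comm, norm_sub_rev]
    exact key y x hy hx
  · rw [pol_of_nonpos hν hx, pol_of_nonpos hν hy]
    refine (abs_min_sub_min_le_max _ _ _ _).trans (max_le (hf _ _) ((hf _ _).trans ?_))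
    rw [hrr]

theorem lipschitz_pol {ν : E} (hν : ‖ν‖ = 1) {f : E → ℝ} {K : ℝ≥0} (hf : LipschitzWith K f) :
    LipschitzWith K (pol ν f) := by
  refine LipschitzWith.of_dist_le_mul fun x y => ?_
  rw [Real.dist_eq, dist_eq_norm]
  refine pol_dist_le hν (fun a b => ?_) K.2 x y
  have := hf.dist_le_mul a b
  rwa [Real.dist_eq, dist_eq_norm] at this

theorem fderiv_eq_of_le {f g : E → ℝ} {x : E} (hf : DifferentiableAt ℝ f x)
    (hg : DifferentiableAt ℝ g x) (hle : ∀ᶠ y in 𝓝 x, f y ≤ g y) (heq : f x = g x) :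
    fderiv ℝ f x = fderiv ℝ g x := by
  have hmin : IsLocalMin (fun y => g y - f y) x := by
    filter_upwards [hle] with y hy
    rw [heq]
    linarith
  have h := hmin.fderiv_eq_zero
  have h2 : fderiv ℝ (fun y => g y - f y) x = fderiv ℝ g x - fderiv ℝ f x := fderiv_sub hg hf
  rw [h2] at h
  exact (sub_eq_zero.1 h).symm

/-- pointwise energy identity -/
theorem pol_fderiv {ν : E} (hν : ‖ν‖ = 1) {f : E → ℝ} (hf : Continuous f) {x : E}
    (hx : 0 < ⟪x, ν⟫)
    (d1 : DifferentiableAt ℝ f x) (d2 : DifferentiableAt ℝ f (rf ν x))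
    (d3 : DifferentiableAt ℝ (pol ν f) x) (d4 : DifferentiableAt ℝ (pol ν f) (rf ν x)) :
    (‖fderiv ℝ (pol ν f) x‖ₑ = ‖fderiv ℝ f x‖ₑ ∧
      ‖fderiv ℝ (pol ν f) (rf ν x)‖ₑ = ‖fderiv ℝ f (rf ν x)‖ₑ) ∨
    (‖fderiv ℝ (pol ν f) x‖ₑ = ‖fderiv ℝ f (rf ν x)‖ₑ ∧
      ‖fderiv ℝ (pol ν f) (rf ν x)‖ₑ = ‖fderiv ℝ f x‖ₑ) := by
  have hrc : Continuous (rf ν) := (rf ν).continuous
  -- the reflected function
  have dr : ∀ y, DifferentiableAt ℝ f (rf ν y) → DifferentiableAt ℝ (fun z => f (rf ν z)) y :=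
    fun y hy => hy.comp y (rf ν).differentiableAt
  have nr : ∀ y, DifferentiableAt ℝ f (rf ν y) →
      ‖fderiv ℝ (fun z => f (rf ν z)) y‖ₑ = ‖fderiv ℝ f (rf ν y)‖ₑ := by
    intro y hy
    have h1 : fderiv ℝ (fun z => f (rf ν z)) y =
        (fderiv ℝ f (rf ν y)).comp (rf ν : E →L[ℝ] E) := by
      have := (hy.hasFDerivAt.comp y (rf ν).toContinuousLinearEquiv.hasFDerivAt).fderiv
      exact this
    rw [h1, ← ofReal_norm, ← ofReal_norm]
    congr 1
    exact ContinuousLinearMap.opNorm_comp_linearIsometryEquiv (fderiv ℝ f (rf ν y)) (rf ν)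
  have ev1 : ∀ᶠ y in 𝓝 x, 0 < ⟪y, ν⟫ := by
    have : Continuous (fun y : E => ⟪y, ν⟫) := by fun_prop
    exact this.continuousAt.eventually (lt_mem_nhds hx)
  have ev2 : ∀ᶠ y in 𝓝 (rf ν x), ⟪y, ν⟫ < 0 := by
    have h1 : Continuous (fun y : E => ⟪y, ν⟫) := by fun_prop
    have h2 : ⟪rf ν x, ν⟫ < 0 := by rw [inner_rf hν]; linarith
    exact h1.continuousAt.eventually (gt_mem_nhds h2)
  have hfr : Continuous (fun z => f (rf ν z)) := hf.comp hrc
  rcases lt_trichotomy (f x) (f (rf ν x)) with h | h | h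
  · right
    constructor
    · have e : pol ν f =ᶠ[𝓝 x] fun z => f (rf ν z) := by
        filter_upwards [ev1, hf.continuousAt.eventually_lt hfr.continuousAt h] with y h1 h2
        rw [pol_of_nonneg h1.le, max_eq_right h2.le]
      rw [e.fderiv_eq, nr x d2]
    · have h' : f (rf ν (rf ν x)) < f (rf ν x) := by rw [rf_rf]; exact h
      have e : pol ν f =ᶠ[𝓝 (rf ν x)] fun z => f (rf ν z) := by
        filter_upwards [ev2, hfr.continuousAt.eventually_lt hf.continuousAt h'] with y h1 h2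
        rw [pol_of_nonpos hν h1.le, min_eq_right h2.le]
      rw [e.fderiv_eq, nr _ (by rwa [rf_rf]), rf_rf]
  · left
    constructor
    · rw [← fderiv_eq_of_le d1 d3]
      · filter_upwards [ev1] with y h1
        rw [pol_of_nonneg h1.le]
        exact le_max_left _ _
      · rw [pol_of_nonneg hx.le, h, max_self]
    · rw [fderiv_eq_of_le d4 d2]
      · filter_upwards [ev2] with y h1
        rw [pol_of_nonpos hν h1.le]
        exact min_le_left _ _
      · have h2 : ⟪rf ν x, ν⟫ < 0 := by rw [inner_rf hν]; linarith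
        rw [pol_of_nonpos hν h2.le, rf_rf, h, min_self]
  · left
    constructor
    · have e : pol ν f =ᶠ[𝓝 x] f := by
        filter_upwards [ev1, hfr.continuousAt.eventually_lt hf.continuousAt h] with y h1 h2
        rw [pol_of_nonneg h1.le, max_eq_left h2.le]
      rw [e.fderiv_eq]
    · have h' : f (rf ν x) < f (rf ν (rf ν x)) := by rw [rf_rf]; exact h
      have e : pol ν f =ᶠ[𝓝 (rf ν x)] f := by
        filter_upwards [ev2, hf.continuousAt.eventually_lt hfr.continuousAt h'] with y h1 h2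
        rw [pol_of_nonpos hν h1.le, min_eq_left h2.le]
      rw [e.fderiv_eq]

variable [MeasurableSpace E] [BorelSpace E]

theorem measurePreserving_rf (ν : E) : MeasurePreserving (rf ν) (volume : Measure E) volume :=
  (rf ν).measurePreserving

theorem ae_inner_ne_zero {ν : E} (hν : ‖ν‖ = 1) : ∀ᵐ x ∂(volume : Measure E), ⟪x, ν⟫ ≠ 0 := by
  have h : (volume : Measure E) ((ℝ ∙ ν)ᗮ : Submodule ℝ E) = 0 := by
    refine Measure.addHaar_submodule _ _ ?_
    intro h
    have h1 : ν ∈ (ℝ ∙ ν)ᗮ := by rw [h]; trivial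
    rw [Submodule.mem_orthogonal_singleton_iff_inner_right, real_inner_self_eq_norm_sq, hν] at h1
    norm_num at h1
  rw [ae_iff]
  refine measure_mono_null ?_ h
  intro x hx
  simp only [ne_eq, not_not, mem_ofPred_eq] at hx
  rw [SetLike.mem_coe, Submodule.mem_orthogonal_singleton_iff_inner_left]
  exact hx

theorem eLpNorm_fderiv_pol {p : ℝ≥0∞} (hp0 : p ≠ 0) (hp' : p ≠ ⊤) {ν : E} (hν : ‖ν‖ = 1)
    {K : ℝ≥0} {f : E → ℝ} (hf : LipschitzWith K f) :
    eLpNorm (fderiv ℝ (pol ν f)) p volume = eLpNorm (fderiv ℝ f) p volume := by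
  rw [eLpNorm_eq_lintegral_rpow_enorm_toReal hp0 hp', eLpNorm_eq_lintegral_rpow_enorm_toReal hp0 hp']
  congr 1
  have hl := lipschitz_pol hν hf
  have hmp := measurePreserving_rf ν
  have a1 := hf.ae_differentiableAt (μ := (volume : Measure E))
  have a2 := hmp.quasiMeasurePreserving.ae a1
  have a3 := hl.ae_differentiableAt (μ := (volume : Measure E))
  have a4 := hmp.quasiMeasurePreserving.ae a3
  have a5 := ae_inner_ne_zero (E := E) hν
  set A : E → ℝ≥0∞ := fun x => ‖fderiv ℝ (pol ν f) x‖ₑ ^ p.toReal with hA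
  set B : E → ℝ≥0∞ := fun x => ‖fderiv ℝ f x‖ₑ ^ p.toReal with hB
  have mA : Measurable A := (measurable_fderiv ℝ (pol ν f)).enorm.pow_const _
  have mB : Measurable B := (measurable_fderiv ℝ f).enorm.pow_const _
  have key : ∀ᵐ x ∂(volume : Measure E), A x + A (rf ν x) = B x + B (rf ν x) := by
    filter_upwards [a1, a2, a3, a4, a5] with x d1 d2 d3 d4 hx
    rcases lt_or_gt_of_ne hx with h | h
    · have h' : 0 < ⟪rf ν x, ν⟫ := by rw [inner_rf hν]; linarith
      have := pol_fderiv hν hf.continuous h' d2 (by rwa [rf_rf]) d4 (by rwa [rf_rf])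
      rw [rf_rf] at this
      rcases this with ⟨e1, e2⟩ | ⟨e1, e2⟩
      · simp only [hA, hB, e1, e2]
      · simp only [hA, hB, e1, e2]
        rw [add_comm]
    · have := pol_fderiv hν hf.continuous h d1 d2 d3 d4
      rcases this with ⟨e1, e2⟩ | ⟨e1, e2⟩
      · simp only [hA, hB, e1, e2]
      · simp only [hA, hB, e1, e2]
        rw [add_comm]
  have h1 : ∫⁻ x, A x + A (rf ν x) = ∫⁻ x, B x + B (rf ν x) := lintegral_congr_ae key
  rw [lintegral_add_left mA, lintegral_add_left mB, hmp.lintegral_comp mA,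
    hmp.lintegral_comp mB, ← two_mul, ← two_mul] at h1
  exact (ENNReal.mul_right_inj (by norm_num) (by norm_num)).1 h1

theorem tendstoLocallyUniformly_pol {ν : E} {U : ℕ → E → ℝ} {u : E → ℝ}
    (h : TendstoLocallyUniformly U u atTop) :
    TendstoLocallyUniformly (fun k => pol ν (U k)) (pol ν u) atTop := by
  rw [Metric.tendstoLocallyUniformly_iff] at h ⊢
  intro ε hε x
  obtain ⟨t1, ht1, h1⟩ := h (ε / 2) (by positivity) x
  obtain ⟨t2, ht2, h2⟩ := h (ε / 2) (by positivity) (rf ν x)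
  refine ⟨t1 ∩ (rf ν) ⁻¹' t2, Filter.inter_mem ht1
    ((rf ν).continuous.continuousAt.preimage_mem_nhds ht2), ?_⟩
  filter_upwards [h1, h2] with k hk1 hk2 y hy
  have e1 := hk1 y hy.1
  have e2 := hk2 (rf ν y) hy.2
  rw [Real.dist_eq] at e1 e2 ⊢
  have := pol_sub_le ν (f := u) (g := U k) (x := y) e1.le e2.le
  linarith

theorem EN_pol {p C : ℝ≥0∞} (hp : 2 ≤ p) (hp' : p ≠ ⊤) (hC : C ≠ ⊤) {ν : E} (hν : ‖ν‖ = 1)
    {u : E → ℝ} (hu : EN p C u) : EN p C (pol ν u) := by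
  have hp1 : 1 < p := lt_of_lt_of_le (by norm_num) hp
  obtain ⟨U, Us, Ul, Ue, Ut⟩ := exists_mollify hp1 hp' hu
  refine EN_closed hp hp' hC (u := fun k => pol ν (U k)) (fun k => ?_)
    (tendstoLocallyUniformly_pol Ut)
  obtain ⟨K, hK⟩ := Ul k
  refine EN_of_lipschitz hC (lipschitz_pol hν hK) ?_
  rw [eLpNorm_fderiv_pol (by rintro rfl; simp at hp) hp' hν hK]
  exact Ue k

/-- Composition with a `1`-Lipschitz real function. -/
theorem EN_comp {p C : ℝ≥0∞} (hp : 2 ≤ p) (hp' : p ≠ ⊤) (hC : C ≠ ⊤) {F : ℝ → ℝ}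
    (hF : LipschitzWith 1 F) {u : E → ℝ} (hu : EN p C u) : EN p C (fun x => F (u x)) := by
  have hp1 : 1 < p := lt_of_lt_of_le (by norm_num) hp
  obtain ⟨U, Us, Ul, Ue, Ut⟩ := exists_mollify hp1 hp' hu
  have hFd : ∀ a b, |F a - F b| ≤ |a - b| := by
    intro a b
    have := hF.dist_le_mul a b
    rw [Real.dist_eq, Real.dist_eq] at this
    simpa using this
  refine EN_closed hp hp' hC (u := fun k x => F (U k x)) (fun k => ?_) ?_
  · obtain ⟨K, hK⟩ := Ul k
    have hl : LipschitzWith (1 * K) (fun x => F (U k x)) := hF.comp hK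
    refine EN_of_lipschitz hC hl ?_
    refine le_trans ?_ (Ue k)
    refine eLpNorm_mono_ae ?_
    filter_upwards [hl.ae_differentiableAt (μ := (volume : Measure E)),
      hK.ae_differentiableAt (μ := (volume : Measure E))] with x d1 d2
    refine ContinuousLinearMap.opNorm_le_bound _ (norm_nonneg _) fun v => ?_
    refine le_trans ?_ ((fderiv ℝ (U k) x).le_opNorm v)
    have t1 := (d1.hasFDerivAt.hasLineDerivAt v)
    have t2 := (d2.hasFDerivAt.hasLineDerivAt v)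
    have s1 := (hasDerivAt_iff_tendsto_slope_zero.1 t1).norm
    have s2 := (hasDerivAt_iff_tendsto_slope_zero.1 t2).norm
    refine le_of_tendsto_of_tendsto s1 s2 (Eventually.of_forall fun t => ?_)
    simp only [zero_add, zero_smul, add_zero, smul_eq_mul, norm_mul, Real.norm_eq_abs]
    exact mul_le_mul_of_nonneg_left (hFd _ _) (abs_nonneg _)
  · rw [Metric.tendstoLocallyUniformly_iff] at Ut ⊢
    intro ε hε x
    obtain ⟨t, ht, h⟩ := Ut ε hε x
    refine ⟨t, ht, ?_⟩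
    filter_upwards [h] with k hk y hy
    have := hk y hy
    rw [Real.dist_eq] at this ⊢
    exact lt_of_le_of_lt (hFd _ _) this

end Pool.Agent.MP_f42450_an
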