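import Pool.Agent.MP_f42450_an.Clarkson

/-!
# Weak gradients: Lipschitz functions, closedness under locally uniform convergence
-/

open MeasureTheory Metric Set Filter Topology
open scoped ENNReal NNReal RealInnerProductSpace ContDiff

namespace Pool.Agent.MP_f42450_an

variable {E : Type*} [NormedAddCommGroup E] [InnerProductSpace ℝ E] [FiniteDimensional ℝ E]
  [MeasurableSpace E] [BorelSpace E]

/-- `G` is a weak gradient of `u` on the whole space `E`. -/
def IsWeakGrad (u : E → ℝ) (G : E → E) : Prop :=
  ∀ φ : E → ℝ, ContDiff ℝ ∞ φ → HasCompactSupport φ → ∀ v : E,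
    ∫ x, u x * fderiv ℝ φ x v = - ∫ x, ⟪G x, v⟫ * φ x

/-- Continuous functions with a weak gradient of `L^p` norm at most `C`. -/
def EN (p C : ℝ≥0∞) (u : E → ℝ) : Prop :=
  Continuous u ∧ ∃ G : E → E, MemLp G p volume ∧ IsWeakGrad u G ∧ eLpNorm G p volume ≤ C

theorem integrable_mul_testDeriv {u : E → ℝ} (hu : Continuous u) {φ : E → ℝ}
    (hφ : ContDiff ℝ ∞ φ) (hc : HasCompactSupport φ) (v : E) :
    Integrable (fun x => u x * fderiv ℝ φ x v) := by
  have h1 : Continuous (fun x => fderiv ℝ φ x v) :=
    (hφ.continuous_fderiv (by simp)).clm_apply continuous_const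
  have h2 : HasCompactSupport (fun x => fderiv ℝ φ x v) :=
    (hc.fderiv ℝ).comp_left (g := fun L : E →L[ℝ] ℝ => L v) (by simp)
  exact (hu.mul h1).integrable_of_hasCompactSupport h2.mul_left

theorem memLp_test {φ : E → ℝ} (hφ : ContDiff ℝ ∞ φ) (hc : HasCompactSupport φ) (q : ℝ≥0∞) :
    MemLp φ q volume :=
  hφ.continuous.memLp_of_hasCompactSupport hc

/-- Pairing of an `L^p` field with a test function. -/
theorem integrable_pairing {p q : ℝ≥0∞} [hpq : p.HolderTriple q 1] {G : E → E}
    (hG : MemLp G p volume) {φ : E → ℝ} (hφ : MemLp φ q volume) (v : E) :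
    Integrable (fun x => ⟪G x, v⟫ * φ x) :=
  (hG.inner_const v).integrable_mul hφ

theorem EN_of_lipschitz {p C : ℝ≥0∞} (hC : C ≠ ⊤) {K : ℝ≥0} {f : E → ℝ}
    (hf : LipschitzWith K f) (hfC : eLpNorm (fderiv ℝ f) p volume ≤ C) : EN p C f := by
  refine ⟨hf.continuous, fun x => (InnerProductSpace.toDual ℝ E).symm (fderiv ℝ f x), ?_, ?_, ?_⟩
  · refine ⟨?_, ?_⟩
    · exact ((InnerProductSpace.toDual ℝ E).symm.continuous.measurable.comp
        (measurable_fderiv ℝ f)).aestronglyMeasurable
    · refine lt_of_le_of_lt ?_ (lt_of_le_of_lt hfC hC.lt_top)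
      refine eLpNorm_mono (fun x => ?_)
      rw [LinearIsometryEquiv.norm_map]
  · intro φ hφ hc v
    obtain ⟨D, hD⟩ := ContDiff.lipschitzWith_of_hasCompactSupport hc hφ (by simp)
    have h := hf.integral_lineDeriv_mul_eq (μ := volume) hD hc v
    have h1 : ∫ x, lineDeriv ℝ φ x (-v) * f x = - ∫ x, f x * fderiv ℝ φ x v := by
      rw [← integral_neg]
      refine integral_congr_ae (Eventually.of_forall fun x => ?_)
      have : DifferentiableAt ℝ φ x := hφ.differentiable (by simp) x
      simp only [this.lineDeriv_eq_fderiv, map_neg]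
      ring
    have h2 : ∫ x, lineDeriv ℝ f x v * φ x =
        ∫ x, ⟪(InnerProductSpace.toDual ℝ E).symm (fderiv ℝ f x), v⟫ * φ x := by
      refine integral_congr_ae ?_
      filter_upwards [hf.ae_differentiableAt (μ := volume)] with x hx
      rw [hx.lineDeriv_eq_fderiv, InnerProductSpace.toDual_symm_apply]
    rw [← h2, h, h1, neg_neg]
  · refine le_trans ?_ hfC
    refine eLpNorm_mono (fun x => ?_)
    rw [LinearIsometryEquiv.norm_map]

/-- Closedness under locally uniform convergence (`2 ≤ p < ∞`). -/
theorem EN_closed {p C : ℝ≥0∞} (hp : 2 ≤ p) (hp' : p ≠ ⊤) (hC : C ≠ ⊤)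
    {u : ℕ → E → ℝ} {U : E → ℝ} (hu : ∀ k, EN p C (u k))
    (hU : TendstoLocallyUniformly u U atTop) : EN p C U := by
  have hUc : Continuous U := hU.continuous (Frequently.of_forall fun k => (hu k).1)
  have : Fact (1 ≤ p) := ⟨le_trans (by norm_num) hp⟩
  choose huc G hG hw hGC using hu
  set g : ℕ → Lp E p (volume : Measure E) := fun k => (hG k).toLp (G k) with hg
  have hgM : ∀ k, ‖g k‖ ≤ C.toReal := by
    intro k
    rw [hg, Lp.norm_toLp]
    exact ENNReal.toReal_mono hC (hGC k)
  have hpr : 1 ≤ p.toReal := by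
    have := ENNReal.toReal_mono hp' (Fact.out : 1 ≤ p)
    simpa using this
  obtain ⟨h, h', hconv, htend, hnorm⟩ := exists_convex_seq hpr
    (clarkson_Lp (μ := (volume : Measure E)) (F := E) hp hp') g C.toReal hgM
  -- conjugate exponent
  obtain ⟨q, hq⟩ : ∃ q : ℝ≥0∞, p.HolderConjugate q :=
    ⟨(1 - p⁻¹)⁻¹, ENNReal.HolderConjugate.inv_one_sub_inv' Fact.out⟩
  have : p.HolderTriple q 1 := hq
  refine ⟨hUc, h', Lp.memLp h', ?_, ?_⟩
  · intro φ hφ hc v
    have hφq : MemLp φ q volume := memLp_test hφ hc q
    -- the pairing is continuous on `L^p`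
    have hpair : Tendsto (fun k => ∫ x, ⟪(h k) x, v⟫ * φ x) atTop
        (𝓝 (∫ x, ⟪h' x, v⟫ * φ x)) := by
      refine tendsto_integral_of_L1' _ (integrable_pairing (Lp.memLp h') hφq v).aestronglyMeasurable
        (Eventually.of_forall fun k => integrable_pairing (Lp.memLp (h k)) hφq v) ?_
      have hb : ∀ k, eLpNorm ((fun x => ⟪(h k) x, v⟫ * φ x) - fun x => ⟪h' x, v⟫ * φ x) 1 volume
          ≤ eLpNorm (h k - h' : Lp E p volume) p volume * (ENNReal.ofReal ‖v‖ *
            eLpNorm φ q volume) := by
        intro k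
        have e1 : ((fun x => ⟪(h k) x, v⟫ * φ x) - fun x => ⟪h' x, v⟫ * φ x) =ᵐ[volume]
            (fun x => ⟪(h k - h' : Lp E p volume) x, v⟫) • φ := by
          filter_upwards [Lp.coeFn_sub (h k) h'] with x hx
          simp only [Pi.sub_apply, Pi.smul_apply', smul_eq_mul]
          rw [hx, Pi.sub_apply, inner_sub_left]
          ring
        rw [eLpNorm_congr_ae e1]
        refine (eLpNorm_smul_le_mul_eLpNorm (p := p) (q := q) (r := 1)
          hφq.aestronglyMeasurable ((Lp.aestronglyMeasurable _).inner
            aestronglyMeasurable_const)).trans ?_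
        rw [← mul_assoc]
        gcongr
        have e2 : ∀ᵐ x ∂(volume : Measure E), ‖⟪(h k - h' : Lp E p volume) x, v⟫‖ ≤
            ‖v‖ * ‖(h k - h' : Lp E p volume) x‖ := by
          refine Eventually.of_forall fun x => ?_
          rw [mul_comm]
          exact norm_inner_le_norm _ _
        refine (eLpNorm_le_mul_eLpNorm_of_ae_le_mul e2 p).trans ?_
        rw [mul_comm]
      refine tendsto_of_tendsto_of_tendsto_of_le_of_le tendsto_const_nhds ?_
        (fun _ => zero_le) hb
      have t1 : Tendsto (fun k => eLpNorm (h k - h' : Lp E p volume) p volume) atTop (𝓝 0) := by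
        have := tendsto_iff_norm_sub_tendsto_zero.1 htend
        have t2 := ENNReal.tendsto_ofReal this
        rw [ENNReal.ofReal_zero] at t2
        refine t2.congr fun k => ?_
        rw [Lp.norm_def, ENNReal.ofReal_toReal (Lp.eLpNorm_ne_top _)]
      have t3 := ENNReal.Tendsto.mul_const (b := ENNReal.ofReal ‖v‖ * eLpNorm φ q volume) t1
        (Or.inr (ENNReal.mul_ne_top ENNReal.ofReal_ne_top hφq.eLpNorm_ne_top))
      rwa [zero_mul] at t3
    -- main estimate
    set I : ℝ := ∫ x, |fderiv ℝ φ x v| with hI
    have hI0 : 0 ≤ I := integral_nonneg fun x => abs_nonneg _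
    have habsint : Integrable (fun x => |fderiv ℝ φ x v|) := by
      have := (integrable_mul_testDeriv (u := fun _ => (1 : ℝ)) continuous_const hφ hc v).norm
      simpa using this
    have key : ∀ ε > 0, ‖(∫ x, U x * fderiv ℝ φ x v) + ∫ x, ⟪h' x, v⟫ * φ x‖ ≤ ε * I := by
      intro ε hε
      have hunif := (tendstoLocallyUniformly_iff_forall_isCompact.1 hU) (tsupport φ) hc
      rw [Metric.tendstoUniformlyOn_iff] at hunif
      obtain ⟨k0, hk0⟩ := eventually_atTop.1 (hunif ε hε)
      -- the set of good fields
      set S : Set (Lp E p (volume : Measure E)) := {a | ∃ w : E → ℝ, Continuous w ∧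
        IsWeakGrad w a ∧ ∀ x ∈ tsupport φ, |U x - w x| ≤ ε} with hS
      have Sconv : Convex ℝ S := by
        rintro a ⟨wa, ca, ga, ba⟩ b ⟨wb, cb, gb, bb⟩ s t hs ht hst
        refine ⟨fun x => s * wa x + t * wb x, by fun_prop, ?_, ?_⟩
        · intro ψ hψ hψc v
          have i1 := integrable_mul_testDeriv ca hψ hψc v
          have i2 := integrable_mul_testDeriv cb hψ hψc v
          have hψq : MemLp ψ q volume := memLp_test hψ hψc q
          have i3 := integrable_pairing (Lp.memLp a) hψq v
          have i4 := integrable_pairing (Lp.memLp b) hψq v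
          have e1 : ∫ x, (s * wa x + t * wb x) * fderiv ℝ ψ x v =
              s * (∫ x, wa x * fderiv ℝ ψ x v) + t * ∫ x, wb x * fderiv ℝ ψ x v := by
            rw [← integral_const_mul, ← integral_const_mul,
              ← integral_add (i1.const_mul s) (i2.const_mul t)]
            refine integral_congr_ae (Eventually.of_forall fun x => ?_)
            simp only
            ring
          have e2 : ∫ x, ⟪(s • a + t • b : Lp E p volume) x, v⟫ * ψ x =
              s * (∫ x, ⟪a x, v⟫ * ψ x) + t * ∫ x, ⟪b x, v⟫ * ψ x := by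
            rw [← integral_const_mul, ← integral_const_mul,
              ← integral_add (i3.const_mul s) (i4.const_mul t)]
            refine integral_congr_ae ?_
            filter_upwards [Lp.coeFn_add (s • a) (t • b), Lp.coeFn_smul s a,
              Lp.coeFn_smul t b] with x h1 h2 h3
            rw [h1, Pi.add_apply, h2, h3, Pi.smul_apply, Pi.smul_apply, inner_add_left,
              real_inner_smul_left, real_inner_smul_left]
            ring
          rw [e1, e2, ga ψ hψ hψc v, gb ψ hψ hψc v]
          ring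
        · intro x hx
          have h1 : U x - (s * wa x + t * wb x) = s * (U x - wa x) + t * (U x - wb x) := by
            have : U x = s * U x + t * U x := by rw [← add_mul, hst, one_mul]
            linear_combination this
          simp only
          rw [h1]
          calc |s * (U x - wa x) + t * (U x - wb x)|
              ≤ |s * (U x - wa x)| + |t * (U x - wb x)| := abs_add_le _ _
            _ = s * |U x - wa x| + t * |U x - wb x| := by
                rw [abs_mul, abs_mul, abs_of_nonneg hs, abs_of_nonneg ht]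
            _ ≤ s * ε + t * ε := by
                gcongr
                · exact ba x hx
                · exact bb x hx
            _ = ε := by rw [← add_mul, hst, one_mul]
      have gS : g '' Ici k0 ⊆ S := by
        rintro _ ⟨j, hj, rfl⟩
        refine ⟨u j, huc j, ?_, fun x hx => ?_⟩
        · intro ψ hψ hψc v
          rw [hw j ψ hψ hψc v]
          congr 1
          refine integral_congr_ae ?_
          filter_upwards [(hG j).coeFn_toLp] with x hx
          simp only [hg]
          rw [hx]
        · have := hk0 j hj x hx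
          rw [Real.dist_eq] at this
          exact this.le
      have hS2 : ∀ k ≥ k0, h k ∈ S := fun k hk =>
        convexHull_min gS Sconv (convexHull_mono (image_mono (Ici_subset_Ici.2 hk)) (hconv k))
      have est : ∀ k ≥ k0, ‖(∫ x, U x * fderiv ℝ φ x v) + ∫ x, ⟪(h k) x, v⟫ * φ x‖ ≤ ε * I := by
        intro k hk
        obtain ⟨w, cw, gw, bw⟩ := hS2 k hk
        have e1 : ∫ x, ⟪(h k) x, v⟫ * φ x = - ∫ x, w x * fderiv ℝ φ x v := by
          rw [gw φ hφ hc v, neg_neg]
        rw [e1, ← sub_eq_add_neg, ← integral_sub (integrable_mul_testDeriv hUc hφ hc v)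
          (integrable_mul_testDeriv cw hφ hc v), hI, ← integral_const_mul]
        refine norm_integral_le_of_norm_le (habsint.const_mul ε) (Eventually.of_forall fun x => ?_)
        rw [← sub_mul, norm_mul, Real.norm_eq_abs, Real.norm_eq_abs]
        by_cases hx : x ∈ tsupport φ
        · gcongr
          exact bw x hx
        · have : fderiv ℝ φ x = 0 := by
            have := support_fderiv_subset ℝ (f := φ)
            by_contra hne
            exact hx (this hne)
          simp [this]
      have tt : Tendsto (fun k => ‖(∫ x, U x * fderiv ℝ φ x v) + ∫ x, ⟪(h k) x, v⟫ * φ x‖) atTop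
          (𝓝 ‖(∫ x, U x * fderiv ℝ φ x v) + ∫ x, ⟪h' x, v⟫ * φ x‖) :=
        (tendsto_const_nhds.add hpair).norm
      exact le_of_tendsto tt (eventually_atTop.2 ⟨k0, est⟩)
    have zero : ‖(∫ x, U x * fderiv ℝ φ x v) + ∫ x, ⟪h' x, v⟫ * φ x‖ ≤ 0 := by
      refine le_of_forall_pos_le_add fun δ hδ => ?_
      have := key (δ / (I + 1)) (by positivity)
      refine this.trans ?_
      rw [zero_add, div_mul_eq_mul_div, div_le_iff₀ (by positivity)]
      nlinarith
    have := norm_le_zero_iff.1 zero
    linarith
  · rw [← ENNReal.ofReal_toReal (Lp.eLpNorm_ne_top h'), ← Lp.norm_def,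
      ← ENNReal.ofReal_toReal hC]
    exact ENNReal.ofReal_le_ofReal hnorm

end Pool.Agent.MP_f42450_an
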