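import Pool.Agent.MP_f42450_an.Morrey

/-!
# Foliated symmetric competitors

From a function vanishing somewhere on every sphere `S_r`, `r ≥ 1`, we produce a function with no
larger energy that vanishes on a half-line: it maximises a linear functional on a compact class
which is stable under polarization.
-/

open MeasureTheory Metric Set Filter Topology
open scoped ENNReal NNReal RealInnerProductSpace ContDiff

set_option linter.unusedSectionVars false

namespace Pool.Agent.MP_f42450_an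

variable {E : Type*} [NormedAddCommGroup E] [InnerProductSpace ℝ E] [FiniteDimensional ℝ E]
  [MeasurableSpace E] [BorelSpace E]

/-- The compact class. -/
def MC (E : Type*) [NormedAddCommGroup E] [InnerProductSpace ℝ E] [FiniteDimensional ℝ E]
    [MeasurableSpace E] [BorelSpace E] (p C : ℝ≥0∞) : Set C(E, ℝ) :=
  {u | (∀ x, u x ∈ Icc (0 : ℝ) 1) ∧ u 0 = 1 ∧ (∀ r : ℝ, 1 ≤ r → ∃ y : E, ‖y‖ = r ∧ u y = 0) ∧
    EN p C u}

/-- Functions with values in `[0,1]` and a fixed Hölder modulus form a compact set. -/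
theorem isCompact_holder (M β : ℝ) (hβ : 0 < β) :
    IsCompact {u : C(E, ℝ) | (∀ x, u x ∈ Icc (0 : ℝ) 1) ∧ ∀ x y, |u x - u y| ≤ M * ‖x - y‖ ^ β} := by
  have hlim : Tendsto (fun t : ℝ => M * t ^ β) (𝓝 0) (𝓝 0) := by
    have h1 : Tendsto (fun t : ℝ => t ^ β) (𝓝 0) (𝓝 (0 ^ β)) :=
      (Real.continuousAt_rpow_const 0 β (Or.inr hβ.le)).tendsto
    rw [Real.zero_rpow hβ.ne'] at h1
    simpa using h1.const_mul M
  set S : Set C(E, ℝ) :=
    {u : C(E, ℝ) | (∀ x, u x ∈ Icc (0 : ℝ) 1) ∧ ∀ x y, |u x - u y| ≤ M * ‖x - y‖ ^ β} with hS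
  have himg : ContinuousMap.toFun '' S =
      {f : E → ℝ | (∀ x, f x ∈ Icc (0 : ℝ) 1) ∧ ∀ x y, |f x - f y| ≤ M * ‖x - y‖ ^ β} := by
    ext f
    constructor
    · rintro ⟨u, hu, rfl⟩
      exact hu
    · rintro ⟨h1, h2⟩
      have hc : Continuous f := by
        rw [continuous_iff_continuousAt]
        intro x
        rw [ContinuousAt, tendsto_iff_norm_sub_tendsto_zero]
        have h3 : Tendsto (fun y => M * ‖y - x‖ ^ β) (𝓝 x) (𝓝 0) := by
          have h4 : Tendsto (fun y => ‖y - x‖) (𝓝 x) (𝓝 0) := by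
            have : Continuous (fun y : E => ‖y - x‖) := by fun_prop
            have := this.tendsto x
            simpa using this
          exact hlim.comp h4
        exact squeeze_zero (fun _ => norm_nonneg _) (fun y => h2 y x) h3
      exact ⟨⟨f, hc⟩, ⟨h1, h2⟩, rfl⟩
  refine ArzelaAscoli.isCompact_of_equicontinuous S ?_ ?_
  · rw [himg]
    refine IsCompact.of_isClosed_subset (isCompact_univ_pi fun _ : E => isCompact_Icc (a := (0 : ℝ))
      (b := 1)) ?_ (fun f hf x _ => hf.1 x)
    have : {f : E → ℝ | (∀ x, f x ∈ Icc (0 : ℝ) 1) ∧ ∀ x y, |f x - f y| ≤ M * ‖x - y‖ ^ β} =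
        (⋂ x, {f : E → ℝ | f x ∈ Icc (0 : ℝ) 1}) ∩
        ⋂ x, ⋂ y, {f : E → ℝ | |f x - f y| ≤ M * ‖x - y‖ ^ β} := by
      ext f
      simp only [mem_inter_iff, mem_iInter, mem_ofPred_eq]
    rw [this]
    refine (isClosed_iInter fun x => isClosed_Icc.preimage (continuous_apply x)).inter
      (isClosed_iInter fun x => isClosed_iInter fun y => ?_)
    exact isClosed_le (by fun_prop) continuous_const
  · refine Metric.equicontinuous_of_continuity_modulus (fun t => M * t ^ β) hlim _ ?_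
    rintro x y ⟨u, hu⟩
    rw [Real.dist_eq, dist_eq_norm]
    exact hu.2 x y

theorem isCompact_MC {p C : ℝ≥0∞} (hp : 2 ≤ p) (hp' : p ≠ ⊤) (hC : C ≠ ⊤)
    (hpn : (Module.finrank ℝ E : ℝ) < p.toReal) : IsCompact (MC E p C) := by
  have hp1 : 1 < p := lt_of_lt_of_le (by norm_num) hp
  obtain ⟨M, hM0, hM⟩ := morrey (E := E) hp1 hp' hpn hC
  have hpos : 0 < p.toReal := by
    have : (0 : ℝ) ≤ Module.finrank ℝ E := by positivity
    linarith
  have hβ : 0 < 1 - (Module.finrank ℝ E : ℝ) / p.toReal := by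
    rw [sub_pos, div_lt_one hpos]
    exact hpn
  refine (isCompact_holder (E := E) M _ hβ).of_isClosed_subset ?_
    (fun u hu => ⟨hu.1, hM u hu.2.2.2⟩)
  refine IsSeqClosed.isClosed ?_
  intro U u hU hlim
  have hlu := ContinuousMap.tendsto_iff_tendstoLocallyUniformly.1 hlim
  have hpt : ∀ x, Tendsto (fun k => U k x) atTop (𝓝 (u x)) := fun x =>
    hlu.tendstoLocallyUniformlyOn.tendsto_at (mem_univ x)
  refine ⟨fun x => ?_, ?_, fun r hr => ?_, ?_⟩
  · exact isClosed_Icc.mem_of_tendsto (hpt x) (Eventually.of_forall fun k => (hU k).1 x)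
  · refine tendsto_nhds_unique (hpt 0) ?_
    refine tendsto_const_nhds.congr fun k => ?_
    exact ((hU k).2.1).symm
  · choose y hy hy0 using fun k => (hU k).2.2.1 r hr
    have hsph : IsCompact (sphere (0 : E) r) := isCompact_sphere 0 r
    obtain ⟨a, ha, φ, hφ, hφt⟩ := hsph.tendsto_subseq (x := y) (fun k => by simpa using hy k)
    refine ⟨a, by simpa using ha, ?_⟩
    have h1 : Tendsto (fun k => u (y (φ k))) atTop (𝓝 (u a)) :=
      (u.continuous.tendsto a).comp hφt
    have h2 : Tendsto (fun k => u (y (φ k))) atTop (𝓝 0) := by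
      have hunif := (tendstoLocallyUniformly_iff_forall_isCompact.1 hlu) _ hsph
      rw [Metric.tendstoUniformlyOn_iff] at hunif
      rw [Metric.tendsto_atTop]
      intro ε hε
      obtain ⟨k0, hk0⟩ := eventually_atTop.1 (hunif ε hε)
      refine ⟨k0, fun k hk => ?_⟩
      have := hk0 (φ k) (hk.le.trans (hφ.id_le k)) (y (φ k)) (by simpa using hy (φ k))
      rwa [hy0 (φ k)] at this
    exact tendsto_nhds_unique h1 h2
  · exact EN_closed hp hp' hC (fun k => (hU k).2.2.2) hlu

/-- The weight. -/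
noncomputable def wt (e : E) (x : E) : ℝ :=
  (1 + ‖x‖) ^ (-((Module.finrank ℝ E : ℝ) + 2)) * ⟪x, e⟫

theorem continuous_wt (e : E) : Continuous (wt e) := by
  unfold wt
  refine Continuous.mul ?_ (by fun_prop)
  refine Continuous.rpow_const (by fun_prop) fun x => Or.inl ?_
  positivity

theorem integrable_wt {e : E} (he : ‖e‖ = 1) : Integrable (wt e) := by
  have h1 : Integrable (fun x : E => (1 + ‖x‖) ^ (-((Module.finrank ℝ E : ℝ) + 1))) :=
    integrable_one_add_norm (by linarith)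
  refine h1.mono (continuous_wt e).aestronglyMeasurable (Eventually.of_forall fun x => ?_)
  have hx : 0 < 1 + ‖x‖ := by positivity
  have h2 : |⟪x, e⟫| ≤ 1 + ‖x‖ := by
    have := abs_real_inner_le_norm x e
    rw [he, mul_one] at this
    linarith
  unfold wt
  rw [norm_mul, Real.norm_eq_abs, Real.norm_eq_abs, Real.norm_eq_abs,
    abs_of_pos (Real.rpow_pos_of_pos hx _), abs_of_pos (Real.rpow_pos_of_pos hx _)]
  calc (1 + ‖x‖) ^ (-((Module.finrank ℝ E : ℝ) + 2)) * |⟪x, e⟫|
      ≤ (1 + ‖x‖) ^ (-((Module.finrank ℝ E : ℝ) + 2)) * (1 + ‖x‖) := by gcongr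
    _ = _ := by
        rw [← Real.rpow_add_one hx.ne']
        congr 1
        ring

theorem integrable_mul_wt {e : E} (he : ‖e‖ = 1) {u : E → ℝ} (hu : Continuous u) {B : ℝ}
    (hB : ∀ x, |u x| ≤ B) : Integrable (fun x => u x * wt e x) := by
  refine ((integrable_wt he).norm.const_mul B).mono
    (hu.mul (continuous_wt e)).aestronglyMeasurable (Eventually.of_forall fun x => ?_)
  have hB0 : 0 ≤ B := (abs_nonneg _).trans (hB x)
  rw [norm_mul, norm_mul, Real.norm_of_nonneg hB0, norm_norm, Real.norm_eq_abs]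
  exact mul_le_mul_of_nonneg_right (hB x) (norm_nonneg _)

theorem continuousOn_J {p C : ℝ≥0∞} {e : E} (he : ‖e‖ = 1) :
    ContinuousOn (fun u : C(E, ℝ) => ∫ x, u x * wt e x) (MC E p C) := by
  intro u hu
  refine tendsto_integral_filter_of_dominated_convergence (fun x => ‖wt e x‖) ?_ ?_
    (integrable_wt he).norm ?_
  · exact Eventually.of_forall fun v => (v.continuous.mul (continuous_wt e)).aestronglyMeasurable
  · filter_upwards [self_mem_nhdsWithin] with v hv
    refine Eventually.of_forall fun x => ?_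
    rw [norm_mul]
    have h1 := hv.1 x
    have h2 : ‖v x‖ ≤ 1 := by
      rw [Real.norm_of_nonneg h1.1]
      exact h1.2
    exact mul_le_of_le_one_left (norm_nonneg _) h2
  · refine Eventually.of_forall fun x => ?_
    have h1 : Continuous (fun v : C(E, ℝ) => v x) := continuous_eval_const x
    exact ((h1.tendsto u).mono_left nhdsWithin_le_nhds).mul_const _

theorem wt_rf {ν e : E} (hν : ‖ν‖ = 1) (x : E) :
    wt e x - wt e (rf ν x) =
      (1 + ‖x‖) ^ (-((Module.finrank ℝ E : ℝ) + 2)) * (2 * ⟪x, ν⟫ * ⟪ν, e⟫) := by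
  unfold wt
  rw [norm_rf, ← mul_sub, rf_apply hν, inner_sub_left, real_inner_smul_left]
  ring

/-- If polarization does not increase `J`, then `u` is invariant under polarization. -/
theorem pol_eq_of_J_le {ν e : E} (hν : ‖ν‖ = 1) (he : ‖e‖ = 1) (hνe : 0 < ⟪ν, e⟫)
    {u : E → ℝ} (hu : Continuous u) (hu1 : ∀ x, u x ∈ Icc (0 : ℝ) 1)
    (hJ : ∫ x, pol ν u x * wt e x ≤ ∫ x, u x * wt e x) {x : E} (hx : 0 < ⟪x, ν⟫) :
    u (rf ν x) ≤ u x := by
  have habs : ∀ y, |u y| ≤ 1 := fun y => by rw [abs_of_nonneg (hu1 y).1]; exact (hu1 y).2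
  have hpabs : ∀ y, |pol ν u y| ≤ 1 := fun y => by
    rcases pol_mem ν u y with h | h <;> rw [h] <;> exact habs _
  have hpc := continuous_pol hν hu
  set d : E → ℝ := fun y => pol ν u y - u y with hd
  have hdc : Continuous d := hpc.sub hu
  have hdr : ∀ y, d (rf ν y) = - d y := by
    intro y
    have := pol_add ν hν u y
    simp only [hd]
    linarith
  have i1 := integrable_mul_wt he hpc hpabs
  have i2 := integrable_mul_wt he hu habs
  have hI : ∫ y, d y * wt e y ≤ 0 := by
    have : ∫ y, d y * wt e y = (∫ y, pol ν u y * wt e y) - ∫ y, u y * wt e y := by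
      rw [← integral_sub i1 i2]
      refine integral_congr_ae (Eventually.of_forall fun y => ?_)
      simp only [hd]
      ring
    rw [this]
    linarith
  have id : Integrable (fun y => d y * wt e y) := by
    have := i1.sub i2
    refine this.congr (Eventually.of_forall fun y => ?_)
    simp only [hd, Pi.sub_apply]
    ring
  have hrfc : ∫ y, d (rf ν y) * wt e (rf ν y) = ∫ y, d y * wt e y :=
    (measurePreserving_rf ν).integral_comp (rf ν).toHomeomorph.measurableEmbedding
      (fun y => d y * wt e y)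
  have idr : Integrable (fun y => d (rf ν y) * wt e (rf ν y)) :=
    ((measurePreserving_rf ν).integrable_comp_emb
      (rf ν).toHomeomorph.measurableEmbedding).2 id
  set F : E → ℝ := fun y => d y * (wt e y - wt e (rf ν y)) with hF
  have hFc : Continuous F := hdc.mul ((continuous_wt e).sub
    ((continuous_wt e).comp (rf ν).continuous))
  have hFe : ∀ y, F y = d y * wt e y + d (rf ν y) * wt e (rf ν y) := by
    intro y
    simp only [hF, hdr]
    ring
  have iF : Integrable F := (id.add idr).congr (Eventually.of_forall fun y => (hFe y).symm)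
  have hFI : ∫ y, F y ≤ 0 := by
    have : ∫ y, F y = (∫ y, d y * wt e y) + ∫ y, d (rf ν y) * wt e (rf ν y) := by
      rw [← integral_add id idr]
      exact integral_congr_ae (Eventually.of_forall fun y => hFe y)
    rw [this, hrfc]
    linarith
  have hF0 : 0 ≤ F := by
    intro y
    simp only [hF, Pi.zero_apply]
    rw [wt_rf hν]
    have hpos : 0 < (1 + ‖y‖) ^ (-((Module.finrank ℝ E : ℝ) + 2)) :=
      Real.rpow_pos_of_pos (by positivity) _
    rcases le_total 0 ⟪y, ν⟫ with h | h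
    · have h1 : 0 ≤ d y := by
        simp only [hd, pol_of_nonneg h]
        have := le_max_left (u y) (u (rf ν y))
        linarith
      positivity
    · have h1 : d y ≤ 0 := by
        simp only [hd, pol_of_nonpos hν h]
        have := min_le_left (u y) (u (rf ν y))
        linarith
      have h2 : (1 + ‖y‖) ^ (-((Module.finrank ℝ E : ℝ) + 2)) * (2 * ⟪y, ν⟫ * ⟪ν, e⟫) ≤ 0 := by
        have h3 : 2 * ⟪y, ν⟫ * ⟪ν, e⟫ ≤ 0 := by nlinarith
        exact mul_nonpos_of_nonneg_of_nonpos hpos.le h3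
      exact mul_nonneg_of_nonpos_of_nonpos h1 h2
  have hFI0 : ∫ y, F y = 0 := le_antisymm hFI (integral_nonneg hF0)
  have hFae := (integral_eq_zero_iff_of_nonneg hF0 iF).1 hFI0
  have hFeq : F = 0 := (Continuous.ae_eq_iff_eq volume hFc continuous_const).1 hFae
  have hx0 : F x = 0 := by rw [hFeq]; rfl
  simp only [hF] at hx0
  rw [wt_rf hν] at hx0
  have hpos : 0 < (1 + ‖x‖) ^ (-((Module.finrank ℝ E : ℝ) + 2)) :=
    Real.rpow_pos_of_pos (by positivity) _
  have hne : (1 + ‖x‖) ^ (-((Module.finrank ℝ E : ℝ) + 2)) * (2 * ⟪x, ν⟫ * ⟪ν, e⟫) ≠ 0 := by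
    positivity
  have hdx : d x = 0 := by
    rcases mul_eq_zero.1 hx0 with h | h
    · exact h
    · exact absurd h hne
  simp only [hd, pol_of_nonneg hx.le] at hdx
  have := le_max_right (u x) (u (rf ν x))
  linarith

theorem pol_mem_MC {p C : ℝ≥0∞} (hp : 2 ≤ p) (hp' : p ≠ ⊤) (hC : C ≠ ⊤) {ν : E} (hν : ‖ν‖ = 1)
    {u : C(E, ℝ)} (hu : u ∈ MC E p C) :
    (⟨pol ν u, continuous_pol hν u.continuous⟩ : C(E, ℝ)) ∈ MC E p C := by
  refine ⟨fun x => ?_, ?_, fun r hr => ?_, EN_pol hp hp' hC hν hu.2.2.2⟩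
  · simp only [ContinuousMap.coe_mk]
    rcases pol_mem ν u x with h | h <;> rw [h] <;> exact hu.1 _
  · simp only [ContinuousMap.coe_mk]
    rcases pol_mem ν u 0 with h | h <;> rw [h]
    · exact hu.2.1
    · rw [map_zero]
      exact hu.2.1
  · obtain ⟨y, hy, hy0⟩ := hu.2.2.1 r hr
    simp only [ContinuousMap.coe_mk]
    rcases le_total 0 ⟪y, ν⟫ with h | h
    · refine ⟨rf ν y, by rw [norm_rf, hy], ?_⟩
      have h' : ⟪rf ν y, ν⟫ ≤ 0 := by rw [inner_rf hν]; linarith
      rw [pol_of_nonpos hν h', rf_rf, hy0]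
      exact min_eq_right (hu.1 _).1
    · refine ⟨y, hy, ?_⟩
      rw [pol_of_nonpos hν h, hy0]
      exact min_eq_left (hu.1 _).1

/-- Existence of a competitor vanishing on the half-line `{-r e : r ≥ 1}`. -/
theorem exists_symm {p C : ℝ≥0∞} (hp : 2 ≤ p) (hp' : p ≠ ⊤) (hC : C ≠ ⊤)
    (hpn : (Module.finrank ℝ E : ℝ) < p.toReal) {e : E} (he : ‖e‖ = 1)
    (hne : (MC E p C).Nonempty) :
    ∃ v : E → ℝ, EN p C v ∧ v 0 = 1 ∧ ∀ r : ℝ, 1 ≤ r → v (-(r • e)) = 0 := by
  obtain ⟨u, hu, hmax⟩ := (isCompact_MC hp hp' hC hpn).exists_isMaxOn hne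
    (continuousOn_J (p := p) (C := C) he)
  refine ⟨u, hu.2.2.2, hu.2.1, fun r hr => ?_⟩
  obtain ⟨y, hy, hy0⟩ := hu.2.2.1 r hr
  by_cases hye : y = -(r • e)
  · rw [← hye]
    exact hy0
  · have hr0 : 0 < r := by linarith
    have hne' : y + r • e ≠ 0 := fun h => hye (eq_neg_of_add_eq_zero_left h)
    set t : ℝ := ‖y + r • e‖ with ht
    have ht0 : 0 < t := norm_pos_iff.2 hne'
    set ν : E := t⁻¹ • (y + r • e) with hνd
    have hν : ‖ν‖ = 1 := by
      rw [hνd, norm_smul, norm_inv, Real.norm_of_nonneg ht0.le, ← ht, inv_mul_cancel₀ ht0.ne']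
    have htsq : t ^ 2 = 2 * r ^ 2 + 2 * r * ⟪y, e⟫ := by
      rw [ht, norm_add_sq_real, norm_smul, he, hy, real_inner_smul_right,
        Real.norm_of_nonneg hr0.le]
      ring
    have hpos : 0 < r + ⟪y, e⟫ := by
      have : 0 < t ^ 2 := by positivity
      rw [htsq] at this
      have h2 : 0 < 2 * r * (r + ⟪y, e⟫) := by nlinarith
      exact (mul_pos_iff_of_pos_left (by positivity)).1 h2
    have hνe : 0 < ⟪ν, e⟫ := by
      rw [hνd, real_inner_smul_left, inner_add_left, real_inner_smul_left,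
        real_inner_self_eq_norm_sq, he]
      have : 0 < ⟪y, e⟫ + r * 1 ^ 2 := by nlinarith
      positivity
    have hyν : ⟪y, ν⟫ = t⁻¹ * (r * (r + ⟪y, e⟫)) := by
      rw [hνd, real_inner_smul_right, inner_add_right, real_inner_smul_right,
        real_inner_self_eq_norm_sq, hy]
      ring
    have hyν0 : 0 < ⟪y, ν⟫ := by
      rw [hyν]
      positivity
    have hrf : rf ν y = -(r • e) := by
      rw [rf_apply hν, hyν]
      have h3 : (2 * (t⁻¹ * (r * (r + ⟪y, e⟫)))) • ν = y + r • e := by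
        rw [hνd, smul_smul]
        have : 2 * (t⁻¹ * (r * (r + ⟪y, e⟫))) * t⁻¹ = 1 := by
          field_simp
          linarith
        rw [this, one_smul]
      rw [h3]
      abel
    have hJ := hmax (pol_mem_MC hp hp' hC hν hu)
    have := pol_eq_of_J_le hν he hνe u.continuous hu.1 hJ hyν0
    rw [hrf, hy0] at this
    exact le_antisymm this (hu.1 _).1

end Pool.Agent.MP_f42450_an
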